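import Pool.Agent.Helper21K9.PM.Disc
import Pool.Agent.TH869.LPD.Words

/-!
# Words of digits in the prime multiples of a number
-/

set_option autoImplicit false

namespace Pool.Agent.Helper21K9.PM

open Finset
open Pool.Agent.H807R2.Dav Pool.Agent.W226.MP Pool.Agent.TH869.LPD

/-- a lower bound for the number of primes -/
lemma np_ge (δ : ℝ) (hδ : 0 < δ) (X : ℕ) (hX : 2 ≤ X) :
    δ / 20 * (X : ℝ) ^ (1 - δ) ≤ np X := by
  have hXr : (2 : ℝ) ≤ X := by exact_mod_cast hX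
  have hX0 : (0 : ℝ) < X := by linarith
  have h1 := Chebyshev.psi_ge X
  have h2 := Chebyshev.psi_le_primeCounting_mul_log X
  have h3 : (Nat.primeCounting X : ℝ) = np X := by
    unfold np Nat.primeCounting Nat.primeCounting'
    rfl
  rw [h3] at h2
  have hl2 := Real.log_two_gt_d9
  have hl2' := Real.log_two_lt_d9
  have hl3 : Real.log 3 ≤ 1.11 := by
    have h4 : Real.log ((3 : ℝ) ^ (10 : ℕ)) ≤ Real.log ((2 : ℝ) ^ (16 : ℕ)) :=
      Real.log_le_log (by norm_num) (by norm_num)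
    rw [Real.log_pow, Real.log_pow] at h4
    push_cast at h4
    linarith
  have h5 : Real.log (X + 1) ≤ Real.log 3 + ((X : ℝ) - 2) / 3 := by
    have h6 : Real.log ((X : ℝ) + 1) = Real.log 3 + Real.log (((X : ℝ) + 1) / 3) := by
      rw [← Real.log_mul (by norm_num) (by positivity)]
      congr 1; field_simp
    have h7 := Real.log_le_sub_one_of_pos (by positivity : 0 < ((X : ℝ) + 1) / 3)
    rw [h6]; linarith
  have h8 : (1 / 20 : ℝ) * X ≤ np X * Real.log X := by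
    have : (X : ℝ) * 0.69 ≤ X * Real.log 2 := by gcongr; linarith
    nlinarith
  have h9 := Real.log_le_rpow_div hX0.le hδ
  have hXδ : 0 < (X : ℝ) ^ δ := by positivity
  have hn0 : (0 : ℝ) ≤ np X := Nat.cast_nonneg _
  have h10 : (1 / 20 : ℝ) * X ≤ np X * ((X : ℝ) ^ δ / δ) := h8.trans (by gcongr)
  have h11 : (X : ℝ) ^ (1 - δ) * (X : ℝ) ^ δ = X := by
    rw [← Real.rpow_add hX0]; simp
  have h12 : (δ / 20 * (X : ℝ) ^ (1 - δ)) * (X : ℝ) ^ δ ≤ np X * (X : ℝ) ^ δ := by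
    calc (δ / 20 * (X : ℝ) ^ (1 - δ)) * (X : ℝ) ^ δ =
          δ / 20 * ((X : ℝ) ^ (1 - δ) * (X : ℝ) ^ δ) := by ring
      _ = δ * ((1 / 20) * X) := by rw [h11]; ring
      _ ≤ δ * (np X * ((X : ℝ) ^ δ / δ)) := by gcongr
      _ = np X * (X : ℝ) ^ δ := by field_simp
  exact le_of_mul_le_mul_right h12 hXδ

/-- `s` is a good place of `x` for the prime multiples `p x`, `p ≤ X` -/
def GoodP (b X : ℕ) (x : ℝ) (s : ℕ) : Prop :=
  ¬ Bad b (√X) (1 / (((b : ℝ) + 1) * √X)) x s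

/-- the prime multiples -/
noncomputable def seqp (x y : ℝ) (l : ℕ) : ℝ := pr l * x + y

open Classical in
/-- cells -/
lemma cells (K : ℝ) (hK : ∀ X : ℕ, 1 ≤ X → ∀ g : ℕ, 2 ≤ g →
    ∀ (x : ℝ) (s : ℕ), ¬ Bad g (√X) (1 / (((g : ℝ) + 1) * √X)) x s →
    ∀ y α β : ℝ, 0 ≤ α → α ≤ β → β ≤ 1 →
    |(((range (np X)).filter (fun l : ℕ => α ≤ Int.fract ((g : ℝ) ^ s * (pr l * x + y)) ∧
      Int.fract ((g : ℝ) ^ s * (pr l * x + y)) < β)).card : ℝ) - (β - α) * np X| ≤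
      K * √g * (X : ℝ) ^ (39 / 40 : ℝ))
    (X : ℕ) (hX : 1 ≤ X) (b : ℕ) (hb : 2 ≤ b) (x : ℝ) (s : ℕ) (hs : GoodP b X x s) (y : ℝ)
    (L z : ℕ) (hz : z < b ^ L) :
    (((range (np X)).filter (fun m : ℕ =>
      ⌊Int.fract (seqp x y m * (b:ℝ)^s) * ((b ^ L : ℕ) : ℝ)⌋₊ = z)).card : ℝ) ≤
      np X / (b : ℝ) ^ L + K * √b * (X : ℝ) ^ (39 / 40 : ℝ) := by
  have hb0 : (0 : ℝ) < b := by exact_mod_cast (by omega : 0 < b)
  have hbL : (0 : ℝ) < (b : ℝ) ^ L := by positivity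
  have hz1 : (z : ℝ) + 1 ≤ (b : ℝ) ^ L := by exact_mod_cast hz
  have h1 := hK X hX b hb x s hs y (z / (b : ℝ) ^ L) ((z + 1) / (b : ℝ) ^ L) (by positivity)
    (by gcongr; linarith) (by rw [div_le_one hbL]; exact hz1)
  have h2 := (abs_le.1 h1).2
  have h3 : (((z : ℝ) + 1) / (b : ℝ) ^ L - z / (b : ℝ) ^ L) * np X = np X / (b : ℝ) ^ L := by ring
  rw [h3] at h2
  have h4 : (range (np X)).filter (fun m : ℕ =>
      ⌊Int.fract (seqp x y m * (b:ℝ)^s) * ((b ^ L : ℕ) : ℝ)⌋₊ = z) =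
      (range (np X)).filter (fun l : ℕ => z / (b : ℝ) ^ L ≤ Int.fract ((b : ℝ) ^ s * (pr l * x + y)) ∧
      Int.fract ((b : ℝ) ^ s * (pr l * x + y)) < (z + 1) / (b : ℝ) ^ L) := by
    apply filter_congr
    intro m _
    unfold seqp
    rw [mul_comm (pr m * x + y), Nat.cast_pow]
    have h0 : 0 ≤ Int.fract ((b : ℝ) ^ s * (pr m * x + y)) * (b : ℝ) ^ L :=
      mul_nonneg (Int.fract_nonneg _) hbL.le
    rw [Nat.floor_eq_iff h0, div_le_iff₀ hbL, lt_div_iff₀ hbL]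
  rw [h4]
  linarith

/-- windows -/
lemma window (K : ℝ) (hK1 : 1 ≤ K) (X : ℕ) (hX : 2 ≤ X) (b L : ℕ) (hb : 2 ≤ b)
    (hL : (b : ℝ) ^ L * √b ≤ (X : ℝ) ^ (1 / 80 : ℝ)) :
    (b : ℝ) ^ L * (np X / (b : ℝ) ^ L + K * √b * (X : ℝ) ^ (39 / 40 : ℝ)) ≤ 1601 * K * np X := by
  have hb0 : (0 : ℝ) < b := by exact_mod_cast (by omega : 0 < b)
  have hbL : (0 : ℝ) < (b : ℝ) ^ L := by positivity
  have hXr : (2 : ℝ) ≤ X := by exact_mod_cast hX
  have hX0 : (0 : ℝ) < X := by linarith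
  have h1 := np_ge (1 / 80) (by norm_num) X hX
  have h2 : (b : ℝ) ^ L * (np X / (b : ℝ) ^ L + K * √b * (X : ℝ) ^ (39 / 40 : ℝ)) =
      np X + K * (((b : ℝ) ^ L * √b) * (X : ℝ) ^ (39 / 40 : ℝ)) := by field_simp
  have h3 : ((b : ℝ) ^ L * √b) * (X : ℝ) ^ (39 / 40 : ℝ) ≤ (X : ℝ) ^ (1 - 1 / 80 : ℝ) := by
    calc ((b : ℝ) ^ L * √b) * (X : ℝ) ^ (39 / 40 : ℝ)
        ≤ (X : ℝ) ^ (1 / 80 : ℝ) * (X : ℝ) ^ (39 / 40 : ℝ) := by gcongr
      _ = (X : ℝ) ^ (1 - 1 / 80 : ℝ) := by rw [← Real.rpow_add hX0]; norm_num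
  rw [h2]
  have hn0 : (0 : ℝ) ≤ np X := Nat.cast_nonneg _
  have h4 : (X : ℝ) ^ (1 - 1 / 80 : ℝ) ≤ 1600 * np X := by linarith
  have h5 : K * (((b : ℝ) ^ L * √b) * (X : ℝ) ^ (39 / 40 : ℝ)) ≤ K * (1600 * np X) :=
    mul_le_mul_of_nonneg_left (h3.trans h4) (by linarith)
  nlinarith

/-- good places of irrational numbers -/
lemma goodP_exists (b X : ℕ) (hb : 2 ≤ b) (hX : 1 ≤ X) (x : ℝ) (hx : Irrational x) (S : ℕ) :
    ∃ s : ℕ, S ≤ s ∧ GoodP b X x s := by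
  by_contra hcon
  push Not at hcon
  have hXr : (1 : ℝ) ≤ X := by exact_mod_cast hX
  have hU1 : 1 ≤ √(X : ℝ) := Real.one_le_sqrt.2 hXr
  have hbr : (2 : ℝ) ≤ b := by exact_mod_cast hb
  set U : ℝ := √X with hU
  set τ : ℝ := 1 / (((b : ℝ) + 1) * U) with hτ
  have hτ0 : 0 < τ := by positivity
  have hτ1 : ((b : ℝ) + 1) * U * τ ≤ 1 := by rw [hτ]; field_simp; exact le_rfl
  -- the smallest distance
  obtain ⟨c, hc, hmin⟩ : ∃ c : ℝ, 0 < c ∧ ∀ u : ℕ, 1 ≤ u → (u : ℝ) ≤ U → ∀ t : ℤ,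
      c ≤ |(u : ℝ) * (b : ℝ) ^ S * x - t| := by
    have hex : ∀ n : ℕ, ∃ c : ℝ, 0 < c ∧ ∀ u : ℕ, 1 ≤ u → u < n → ∀ t : ℤ,
        c ≤ |(u : ℝ) * (b : ℝ) ^ S * x - t| := by
      intro n
      induction n with
      | zero => exact ⟨1, one_pos, fun q _ h => absurd h (Nat.not_lt_zero q)⟩
      | succ n ih =>
        obtain ⟨c, hc, h⟩ := ih
        rcases Nat.eq_zero_or_pos n with hn | hn
        · exact ⟨1, one_pos, fun q h1 h2 => by omega⟩
        · have hirr : Irrational ((n : ℝ) * (b : ℝ) ^ S * x) := by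
            have h1 : ((n : ℝ) * (b : ℝ) ^ S * x) = ((n * b ^ S : ℕ) : ℝ) * x := by push_cast; ring
            rw [h1]
            apply hx.natCast_mul
            positivity
          have hpos : 0 < |(n : ℝ) * (b : ℝ) ^ S * x - round ((n : ℝ) * (b : ℝ) ^ S * x)| := by
            rw [abs_pos, sub_ne_zero]
            exact hirr.ne_int _
          refine ⟨min c |(n : ℝ) * (b : ℝ) ^ S * x - round ((n : ℝ) * (b : ℝ) ^ S * x)|,
            lt_min hc hpos, fun q h1 h2 p => ?_⟩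
          rcases Nat.lt_succ_iff_lt_or_eq.1 h2 with h3 | h3
          · exact (min_le_left _ _).trans (h q h1 h3 p)
          · rw [h3]
            exact (min_le_right _ _).trans (round_le _ _)
    obtain ⟨c, hc, h⟩ := hex (⌊U⌋₊ + 1)
    refine ⟨c, hc, fun u h1 h2 t => h u h1 ?_ t⟩
    exact Nat.lt_succ_of_le (Nat.le_floor h2)
  obtain ⟨n, hn⟩ := pow_unbounded_of_one_lt (U * τ / c) (by linarith : (1 : ℝ) < b)
  obtain ⟨u, hu1, hu2, t, ht⟩ := run b (by omega) U τ x hτ0 hτ1 S n (fun i _ => by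
    have h1 := hcon (S + i) (by omega)
    unfold GoodP at h1
    push Not at h1
    exact h1)
  have h1 := (hmin u hu1 hu2 t).trans ht
  rw [le_div_iff₀ (by positivity)] at h1
  rw [div_lt_iff₀ hc] at hn
  linarith

/-- words whose value is prescribed -/
lemma occursAt_val (b k : ℕ) (hb : 2 ≤ b) (w : Fin k → Fin b) (y : ℝ) (p : ℕ) :
    OccursAt b k w y p ↔ ⌊y * (b : ℝ) ^ (p + k)⌋ % ((b : ℤ) ^ k) = val b (ext b k w) k := by
  rw [occursAt_iff, occ_iff b (by omega) _ (ext_lt b k hb w)]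

/-- every value is the value of a word -/
lemma exists_word (b k : ℕ) (hb : 2 ≤ b) (W : ℕ) (hW : W < b ^ k) :
    ∃ w : Fin k → Fin b, val b (ext b k w) k = W := by
  classical
  have hinj : Function.Injective (fun w : Fin k → Fin b =>
      (⟨val b (ext b k w) k, val_lt b _ (ext_lt b k hb w) k⟩ : Fin (b ^ k))) := by
    intro w w' hww
    have h1 : val b (ext b k w) k = val b (ext b k w') k := by
      have := congrArg Fin.val hww
      exact this
    -- digits are determined by the value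
    have key : ∀ n : ℕ, ∀ u v : ℕ → ℕ, (∀ s, u s < b) → (∀ s, v s < b) → val b u n = val b v n →
        ∀ s < n, u s = v s := by
      intro n
      induction n with
      | zero => intro u v _ _ _ s hs; omega
      | succ n ih =>
        intro u v hu hv h s hs
        rw [Pool.Agent.W226.MP.val, Pool.Agent.W226.MP.val] at h
        have h2 : val b u n = val b v n := by
          have h3 : (b * val b u n + u n) / b = (b * val b v n + v n) / b := by rw [h]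
          rw [Nat.mul_add_div (by omega), Nat.mul_add_div (by omega), Nat.div_eq_of_lt (hu n),
            Nat.div_eq_of_lt (hv n)] at h3
          omega
        rcases Nat.lt_succ_iff_lt_or_eq.1 hs with h4 | h4
        · exact ih u v hu hv h2 s h4
        · rw [h4]
          rw [h2] at h
          omega
    funext s
    have h2 := key k _ _ (ext_lt b k hb w) (ext_lt b k hb w') h1 s s.2
    unfold Pool.Agent.W226.MP.ext at h2
    rw [dif_pos s.2, dif_pos s.2] at h2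
    exact Fin.ext h2
  have hcard : Fintype.card (Fin k → Fin b) = Fintype.card (Fin (b ^ k)) := by simp
  have hbij := (Fintype.bijective_iff_injective_and_card _).2 ⟨hinj, hcard⟩
  obtain ⟨w, hw⟩ := hbij.2 ⟨W, hW⟩
  exact ⟨w, congrArg Fin.val hw⟩

end Pool.Agent.Helper21K9.PM
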