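import Pool.Agent.Helper21K9.PM.Exp2
import Pool.Agent.TH869.LPD.Disc
import Pool.Agent.TH869.LPD.Place

/-!
# Discrepancy of the prime multiples of a number at a good place
-/

set_option autoImplicit false

namespace Pool.Agent.Helper21K9.PM

open Finset
open Pool.Agent.H807R2.Dav

/-- the number of primes up to `X` -/
noncomputable def np (X : ℕ) : ℕ := Nat.count Nat.Prime (X + 1)

/-- the `l`-th prime -/
noncomputable def pr (l : ℕ) : ℕ := Nat.nth Nat.Prime l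

lemma pr_prime (l : ℕ) : (pr l).Prime := Nat.prime_nth_prime l

lemma pr_inj : Function.Injective pr := Nat.nth_injective Nat.infinite_setOfPred_prime

lemma image_pr (X : ℕ) : (range (np X)).image pr = (range (X + 1)).filter Nat.Prime := by
  ext p
  rw [mem_image, mem_filter, mem_range]
  constructor
  · rintro ⟨l, hl, rfl⟩
    rw [mem_range] at hl
    exact ⟨Nat.nth_lt_of_lt_count hl, pr_prime l⟩
  · rintro ⟨h1, h2⟩
    refine ⟨Nat.count Nat.Prime p, ?_, Nat.nth_count h2⟩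
    rw [mem_range]
    exact Nat.count_strict_mono h2 h1

lemma sum_pr {M : Type*} [AddCommMonoid M] (X : ℕ) (f : ℕ → M) :
    ∑ l ∈ range (np X), f (pr l) = ∑ p ∈ (range (X + 1)).filter Nat.Prime, f p := by
  rw [← image_pr, sum_image (fun a _ b _ h => pr_inj h)]

lemma card_pr (X : ℕ) (P : ℕ → Prop) [DecidablePred P] :
    ((range (np X)).filter (fun l => P (pr l))).card =
      (((range (X + 1)).filter Nat.Prime).filter P).card := by
  rw [card_filter, card_filter]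
  exact sum_pr X (fun p => if P p then 1 else 0)

lemma np_le (X : ℕ) : np X ≤ X := by
  have h1 : np X = ((range (X + 1)).filter Nat.Prime).card := by
    unfold np
    rw [Nat.count_eq_card_filter_range]
  rw [h1]
  have h3 : (range (X + 1)).filter Nat.Prime ⊆ Ioc 0 X := by
    intro p hp
    rw [mem_filter, mem_range] at hp
    rw [mem_Ioc]
    exact ⟨hp.2.pos, by omega⟩
  have h4 := card_le_card h3
  rwa [Nat.card_Ioc] at h4

/-- the two exponential functions agree -/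
lemma e_eq_ee (x : ℝ) : Pool.Agent.H332R2.Lit.e x = ee x := by
  unfold Pool.Agent.H332R2.Lit.e ee
  congr 1; ring

/-- the exponential sums at a good place -/
lemma place_sum (ε : ℝ) (hε : 0 < ε) : ∃ K : ℝ, 1 ≤ K ∧ ∀ X : ℕ, 1 ≤ X → ∀ g : ℕ, 2 ≤ g →
    ∀ (x : ℝ) (s : ℕ), ¬ Pool.Agent.TH869.LPD.Bad g (√X) (1 / (((g : ℝ) + 1) * √X)) x s →
    ∀ h : ℤ, h ≠ 0 → |(h : ℝ)| ≤ (X : ℝ) ^ (1 / 4 : ℝ) →
    ‖∑ p ∈ (range (X + 1)).filter Nat.Prime, ee ((p : ℝ) * (h * ((g : ℝ) ^ s * x)))‖ ≤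
      K * √g * (X : ℝ) ^ (7 / 8 + ε : ℝ) := by
  obtain ⟨K₀, hK₀, hmain⟩ := primes_exp ε hε
  refine ⟨3 * K₀, by linarith, fun X hX g hg x s hbad h hh hhX => ?_⟩
  have hXr : (1 : ℝ) ≤ X := by exact_mod_cast hX
  have hX0 : (0 : ℝ) < X := by linarith
  have hgr : (2 : ℝ) ≤ g := by exact_mod_cast hg
  set U : ℝ := √X with hU
  have hU1 : 1 ≤ U := Real.one_le_sqrt.2 hXr
  have hU0 : 0 < U := by linarith
  set τ : ℝ := 1 / (((g : ℝ) + 1) * U) with hτ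
  have hτ0 : 0 < τ := by positivity
  have hinv : 1 / τ = ((g : ℝ) + 1) * U := by rw [hτ]; field_simp
  set n : ℕ := ⌊1 / τ⌋₊ with hn
  have hn1 : 1 ≤ n := by
    rw [hn, Nat.one_le_floor_iff, hinv]
    nlinarith
  have hn2 : 1 / τ < n + 1 := Nat.lt_floor_add_one _
  have hn3 : (n : ℝ) ≤ ((g : ℝ) + 1) * U := by
    rw [← hinv]; exact Nat.floor_le (by positivity)
  set θ : ℝ := h * ((g : ℝ) ^ s * x) with hθ
  obtain ⟨r, hr1, hr2⟩ := Real.exists_rat_abs_sub_le_and_den_le θ (n := n) (by omega)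
  have hq1 : 1 ≤ r.den := r.pos
  have hqr : (1 : ℝ) ≤ r.den := by exact_mod_cast hq1
  have hq0 : (0 : ℝ) < r.den := by linarith
  have hqn : (r.den : ℝ) ≤ n := by exact_mod_cast hr2
  have hrcast : (r : ℝ) = r.num / r.den := by
    exact_mod_cast (Rat.num_div_den r).symm
  -- the denominator is not small
  have hbig : U < r.den * |(h : ℝ)| := by
    by_contra hcon
    push Not at hcon
    apply hbad
    have hha : 1 ≤ h.natAbs := Int.natAbs_pos.2 hh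
    have habs : ((h.natAbs : ℕ) : ℝ) = |(h : ℝ)| := by rw [Nat.cast_natAbs, Int.cast_abs]
    refine ⟨r.den * h.natAbs, Nat.mul_pos hq1 hha, ?_, ?_⟩
    · push_cast
      rw [habs]; exact hcon
    · refine ⟨r.num * h.sign, ?_⟩
      have hsg : ((h.sign : ℤ) : ℝ) * h = |(h : ℝ)| := by
        have := Int.sign_mul_self_eq_abs h
        exact_mod_cast this
      have hsabs : |((h.sign : ℤ) : ℝ)| = 1 := by
        rcases lt_or_gt_of_ne hh with h2 | h2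
        · rw [Int.sign_eq_neg_one_of_neg h2]; norm_num
        · rw [Int.sign_eq_one_of_pos h2]; norm_num
      have e1 : (((r.den * h.natAbs : ℕ) : ℝ)) * (g : ℝ) ^ s * x - ((r.num * h.sign : ℤ) : ℝ) =
          (h.sign : ℝ) * (r.den * (θ - r)) := by
        push_cast
        rw [habs, ← hsg, hrcast, hθ]
        field_simp
      rw [e1, abs_mul, hsabs, one_mul, abs_mul, abs_of_pos hq0]
      calc (r.den : ℝ) * |θ - r| ≤ r.den * (1 / ((n + 1) * r.den)) :=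
            mul_le_mul_of_nonneg_left hr1 hq0.le
        _ = 1 / (n + 1) := by field_simp
        _ < τ := by
            rw [div_lt_comm₀ (by positivity) hτ0]
            exact hn2
  have happ : |θ - r.num / r.den| ≤ 1 / (r.den : ℝ) ^ 2 := by
    rw [← hrcast]
    refine hr1.trans ?_
    apply one_div_le_one_div_of_le (by positivity)
    rw [pow_two]
    apply mul_le_mul_of_nonneg_right _ hq0.le
    linarith
  have hcop : IsCoprime r.num (r.den : ℤ) := by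
    have h1 := r.reduced
    rw [Int.isCoprime_iff_gcd_eq_one]
    simpa [Int.gcd] using h1
  have h1 := hmain X hX r.den hq1 r.num hcop θ happ
  refine h1.trans ?_
  have hUX : U = (X : ℝ) ^ (1 / 2 : ℝ) := by rw [hU, Real.sqrt_eq_rpow]
  have hq4 : (X : ℝ) / r.den ≤ (X : ℝ) ^ (3 / 4 : ℝ) := by
    have h2 : (X : ℝ) ^ (1 / 4 : ℝ) ≤ r.den := by
      have h3 : (X : ℝ) ^ (1 / 4 : ℝ) * (X : ℝ) ^ (1 / 4 : ℝ) < r.den * (X : ℝ) ^ (1 / 4 : ℝ) := by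
        rw [← Real.rpow_add hX0]
        have : (1 / 4 + 1 / 4 : ℝ) = 1 / 2 := by norm_num
        rw [this, ← hUX]
        exact lt_of_lt_of_le hbig (mul_le_mul_of_nonneg_left hhX hq0.le)
      exact (lt_of_mul_lt_mul_right h3 (by positivity)).le
    rw [div_le_iff₀ hq0]
    calc (X : ℝ) = (X : ℝ) ^ (3 / 4 : ℝ) * (X : ℝ) ^ (1 / 4 : ℝ) := by
          rw [← Real.rpow_add hX0]; norm_num
      _ ≤ (X : ℝ) ^ (3 / 4 : ℝ) * r.den := by gcongr
  have hq5 : (r.den : ℝ) ≤ (g + 1) * (X : ℝ) ^ (3 / 4 : ℝ) := by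
    refine hqn.trans (hn3.trans ?_)
    apply mul_le_mul_of_nonneg_left _ (by positivity)
    rw [hUX]
    exact Real.rpow_le_rpow_of_exponent_le hXr (by norm_num)
  have hY0 : 0 ≤ (X : ℝ) ^ (3 / 4 : ℝ) := by positivity
  have h2 : √(X * ((X : ℝ) / r.den + (X : ℝ) ^ (3 / 4 : ℝ) + r.den)) ≤
      3 * √g * (X : ℝ) ^ (7 / 8 : ℝ) := by
    rw [Real.sqrt_le_left (by positivity)]
    have h3 : (3 * √(g : ℝ) * (X : ℝ) ^ (7 / 8 : ℝ)) ^ 2 = 9 * g * (X : ℝ) ^ (7 / 4 : ℝ) := by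
      rw [mul_pow, mul_pow, Real.sq_sqrt (by linarith), ← Real.rpow_natCast ((X : ℝ) ^ (7 / 8 : ℝ)),
        ← Real.rpow_mul hX0.le]
      norm_num
    rw [h3]
    calc (X : ℝ) * ((X : ℝ) / r.den + (X : ℝ) ^ (3 / 4 : ℝ) + r.den)
        ≤ X * ((X : ℝ) ^ (3 / 4 : ℝ) + (X : ℝ) ^ (3 / 4 : ℝ) + (g + 1) * (X : ℝ) ^ (3 / 4 : ℝ)) := by
          gcongr
      _ = (g + 3) * (X * (X : ℝ) ^ (3 / 4 : ℝ)) := by ring
      _ = (g + 3) * (X : ℝ) ^ (7 / 4 : ℝ) := by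
          congr 1
          nth_rewrite 1 [← Real.rpow_one (X : ℝ)]
          rw [← Real.rpow_add hX0]; norm_num
      _ ≤ 9 * g * (X : ℝ) ^ (7 / 4 : ℝ) := by
          apply mul_le_mul_of_nonneg_right _ (by positivity)
          linarith
  calc K₀ * (X : ℝ) ^ ε * √(X * ((X : ℝ) / r.den + (X : ℝ) ^ (3 / 4 : ℝ) + r.den))
      ≤ K₀ * (X : ℝ) ^ ε * (3 * √g * (X : ℝ) ^ (7 / 8 : ℝ)) := by gcongr
    _ = 3 * K₀ * √g * ((X : ℝ) ^ (7 / 8 : ℝ) * (X : ℝ) ^ ε) := by ring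
    _ = 3 * K₀ * √g * (X : ℝ) ^ (7 / 8 + ε : ℝ) := by rw [Real.rpow_add hX0]

open Classical in
/-- the discrepancy at a good place -/
theorem place_disc : ∃ K : ℝ, 1 ≤ K ∧ ∀ X : ℕ, 1 ≤ X → ∀ g : ℕ, 2 ≤ g →
    ∀ (x : ℝ) (s : ℕ), ¬ Pool.Agent.TH869.LPD.Bad g (√X) (1 / (((g : ℝ) + 1) * √X)) x s →
    ∀ y α β : ℝ, 0 ≤ α → α ≤ β → β ≤ 1 →
    |(((range (np X)).filter (fun l : ℕ => α ≤ Int.fract ((g : ℝ) ^ s * (pr l * x + y)) ∧
      Int.fract ((g : ℝ) ^ s * (pr l * x + y)) < β)).card : ℝ) - (β - α) * np X| ≤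
      K * √g * (X : ℝ) ^ (39 / 40 : ℝ) := by
  obtain ⟨K₀, hK₀, hsum⟩ := place_sum (1 / 40) (by norm_num)
  refine ⟨8 + K₀, by linarith, fun X hX g hg x s hbad y α β hα hαβ hβ => ?_⟩
  have hXr : (1 : ℝ) ≤ X := by exact_mod_cast hX
  have hX0 : (0 : ℝ) < X := by linarith
  have hgr : (2 : ℝ) ≤ g := by exact_mod_cast hg
  have hsg : 1 ≤ √(g : ℝ) := Real.one_le_sqrt.2 (by linarith)
  set m : ℕ := ⌊(X : ℝ) ^ (1 / 40 : ℝ)⌋₊ with hm
  have hXm : 1 ≤ (X : ℝ) ^ (1 / 40 : ℝ) := Real.one_le_rpow hXr (by norm_num)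
  have hm1 : 1 ≤ m := by rw [hm, Nat.one_le_floor_iff]; exact hXm
  have hm1r : (1 : ℝ) ≤ m := by exact_mod_cast hm1
  have hm2 : (m : ℝ) ≤ (X : ℝ) ^ (1 / 40 : ℝ) := Nat.floor_le (by positivity)
  have hm3 : (X : ℝ) ^ (1 / 40 : ℝ) ≤ 2 * m := by
    have := (Nat.lt_floor_add_one ((X : ℝ) ^ (1 / 40 : ℝ))).le
    rw [← hm] at this
    linarith
  have hm4 : (m : ℝ) ^ 3 ≤ (X : ℝ) ^ (3 / 40 : ℝ) := by
    calc (m : ℝ) ^ 3 ≤ ((X : ℝ) ^ (1 / 40 : ℝ)) ^ 3 := by gcongr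
      _ = (X : ℝ) ^ (3 / 40 : ℝ) := by
          rw [← Real.rpow_natCast, ← Real.rpow_mul hX0.le]; norm_num
  set S : ℝ := K₀ * √g * (X : ℝ) ^ (9 / 10 : ℝ) with hS
  have hS0 : 0 ≤ S := by positivity
  have h1 := Pool.Agent.TH869.LPD.disc m hm1 (fun l => (g : ℝ) ^ s * (pr l * x + y)) (np X) S hS0 (by
    intro h hh hhm
    have h2 : ∑ l ∈ range (np X), Pool.Agent.H332R2.Lit.e (h * ((g : ℝ) ^ s * (pr l * x + y))) =
        ee (h * ((g : ℝ) ^ s * y)) *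
          ∑ p ∈ (range (X + 1)).filter Nat.Prime, ee ((p : ℝ) * (h * ((g : ℝ) ^ s * x))) := by
      rw [← sum_pr X (fun p : ℕ => ee ((p : ℝ) * (h * ((g : ℝ) ^ s * x)))), mul_sum]
      apply sum_congr rfl
      intro l _
      rw [← e_eq_ee, ← e_eq_ee, ← Pool.Agent.H332R2.Lit.e_add]
      congr 1; ring
    rw [h2, norm_mul, norm_ee', one_mul]
    have h3 : |(h : ℝ)| ≤ (X : ℝ) ^ (1 / 4 : ℝ) := by
      have h4 : |(h : ℝ)| ≤ (m : ℝ) ^ 3 := by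
        have h5 : |h| ≤ ((m ^ 3 : ℕ) : ℤ) := hhm.le
        have h6 : ((|h| : ℤ) : ℝ) ≤ (((m ^ 3 : ℕ) : ℤ) : ℝ) := by exact_mod_cast h5
        rw [Int.cast_abs] at h6
        refine h6.trans (le_of_eq ?_)
        push_cast; ring
      refine h4.trans (hm4.trans ?_)
      exact Real.rpow_le_rpow_of_exponent_le hXr (by norm_num)
    have h4 := hsum X hX g hg x s hbad h hh h3
    have h5 : (7 / 8 + 1 / 40 : ℝ) = 9 / 10 := by norm_num
    rw [h5] at h4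
    exact h4) α β hα hαβ hβ
  refine h1.trans ?_
  have hN : ((np X : ℕ) : ℝ) ≤ X := by exact_mod_cast np_le X
  have h2 : 4 * (np X : ℝ) / m ≤ 8 * (X : ℝ) ^ (39 / 40 : ℝ) := by
    rw [div_le_iff₀ (by linarith)]
    calc 4 * (np X : ℝ) ≤ 4 * X := by linarith
      _ = 4 * ((X : ℝ) ^ (39 / 40 : ℝ) * (X : ℝ) ^ (1 / 40 : ℝ)) := by
          rw [← Real.rpow_add hX0]; norm_num
      _ ≤ 4 * ((X : ℝ) ^ (39 / 40 : ℝ) * (2 * m)) := by gcongr
      _ = 8 * (X : ℝ) ^ (39 / 40 : ℝ) * m := by ring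
  have h3 : (m : ℝ) ^ 3 * S ≤ K₀ * √g * (X : ℝ) ^ (39 / 40 : ℝ) := by
    calc (m : ℝ) ^ 3 * S ≤ (X : ℝ) ^ (3 / 40 : ℝ) * (K₀ * √g * (X : ℝ) ^ (9 / 10 : ℝ)) := by
          rw [hS]; gcongr
      _ = K₀ * √g * ((X : ℝ) ^ (3 / 40 : ℝ) * (X : ℝ) ^ (9 / 10 : ℝ)) := by ring
      _ = K₀ * √g * (X : ℝ) ^ (39 / 40 : ℝ) := by rw [← Real.rpow_add hX0]; norm_num
  have h4 : 8 * (X : ℝ) ^ (39 / 40 : ℝ) ≤ 8 * √g * (X : ℝ) ^ (39 / 40 : ℝ) := by
    have : 0 ≤ (X : ℝ) ^ (39 / 40 : ℝ) := by positivity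
    nlinarith
  calc 4 * (np X : ℝ) / m + (m : ℝ) ^ 3 * S ≤ 8 * √g * (X : ℝ) ^ (39 / 40 : ℝ) +
        K₀ * √g * (X : ℝ) ^ (39 / 40 : ℝ) := by linarith
    _ = (8 + K₀) * √g * (X : ℝ) ^ (39 / 40 : ℝ) := by ring

end Pool.Agent.Helper21K9.PM
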