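import Mathlib
import Pool.Agent.H373R2.T7.Minor
import Pool.Agent.H373R2.T3.TypeI

/-!
# Exponential sums over primes with a power saving
-/

set_option autoImplicit false

namespace Pool.Agent.Helper21K9.PM

open Finset
open Pool.Agent.H807R2.Dav

lemma norm_ee' (x : ℝ) : ‖ee x‖ = 1 := by
  rw [ee_eq, Complex.norm_exp_ofReal_mul_I]

/-- the sum over all `n ≤ N'` from the sums over the blocks -/
lemma block_sum (E : ℕ → ℂ) (X V : ℕ) (hV : 1 ≤ V) (T B : ℝ) (hB : 0 ≤ B)
    (hT : ∀ N', N' ≤ X → N' ≤ 2 * V → ‖∑ n ∈ Ioc 0 N', E n‖ ≤ T)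
    (hblock : ∀ N N' : ℕ, 1 ≤ N → N ≤ N' → N' ≤ 2 * N → V ≤ N → N' ≤ X →
      ‖∑ n ∈ Ioc N N', E n‖ ≤ B) (k : ℕ) :
    ∀ N', N' ≤ 2 ^ k → N' ≤ X → ‖∑ n ∈ Ioc 0 N', E n‖ ≤ T + k * B := by
  induction k with
  | zero =>
    intro N' h1 h2
    rw [Nat.cast_zero, zero_mul, add_zero]
    exact hT N' h2 (by rw [pow_zero] at h1; omega)
  | succ k ih =>
    intro N' h1 h2
    have hkB : 0 ≤ (k : ℝ) * B := by positivity
    rcases Nat.lt_or_ge (2 * V) N' with h | h
    · set N := (N' + 1) / 2 with hN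
      have h3 : N ≤ 2 ^ k := by rw [pow_succ] at h1; omega
      have h4 := ih N h3 (by omega)
      have h5 := hblock N N' (by omega) (by omega) (by omega) (by omega) h2
      have h6 : ∑ n ∈ Ioc 0 N', E n = ∑ n ∈ Ioc 0 N, E n + ∑ n ∈ Ioc N N', E n := by
        rw [← sum_union]
        · congr 1
          rw [Ioc_union_Ioc_eq_Ioc (by omega) (by omega)]
        · rw [disjoint_left]
          intro n h7 h8
          rw [mem_Ioc] at h7 h8
          omega
      rw [h6]
      refine (norm_add_le _ _).trans ?_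
      push_cast
      linarith
    · have := hT N' h2 h
      push_cast
      linarith

/-- the sums with the von Mangoldt function -/
lemma lam_sum (X : ℕ) (hX : 1 ≤ X) (q : ℕ) (hq : 1 ≤ q) (hqX : q ≤ X) (c : ℤ)
    (hcop : IsCoprime c (q : ℤ)) (α : ℝ) (hα : |α - c / q| ≤ 1 / (q : ℝ) ^ 2) (V : ℕ) (hV : 1 ≤ V)
    (hVX : (V * V) * (V * V) ≤ X) (N' : ℕ) (hN' : N' ≤ X) :
    ‖∑ n ∈ Ioc 0 N', ((ArithmeticFunction.vonMangoldt n : ℝ) : ℂ) * ee ((n : ℝ) * α)‖ ≤
      30000 * (1 + Real.log (4 * X)) ^ 7 * √(X * ((X : ℝ) / q + X / V + q)) := by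
  have hXr : (1 : ℝ) ≤ X := by exact_mod_cast hX
  have hqr : (1 : ℝ) ≤ q := by exact_mod_cast hq
  have hqXr : (q : ℝ) ≤ X := by exact_mod_cast hqX
  have hVr : (1 : ℝ) ≤ V := by exact_mod_cast hV
  have hX0 : (0 : ℝ) < X := by linarith
  have hq0 : (0 : ℝ) < q := by linarith
  have hV0 : (0 : ℝ) < V := by linarith
  set L : ℝ := 1 + Real.log (4 * X) with hL
  have hlX : 0 ≤ Real.log X := Real.log_nonneg hXr
  have hL4 : Real.log (4 * X) = Real.log 4 + Real.log X := Real.log_mul (by norm_num) (by linarith)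
  have hl4 : 1 ≤ Real.log 4 := by
    have h1 : Real.log 4 = 2 * Real.log 2 := by
      rw [show (4 : ℝ) = 2 ^ 2 by norm_num, Real.log_pow]; push_cast; ring
    have := Real.log_two_gt_d9
    linarith
  have hL2 : 2 ≤ L := by rw [hL, hL4]; linarith
  have hLX : 2 + Real.log X ≤ L := by rw [hL, hL4]; linarith
  set R : ℝ := √(X * ((X : ℝ) / q + X / V + q)) with hR
  have hVVX : ((V * V : ℕ) : ℝ) * ((V * V : ℕ) : ℝ) ≤ X := by exact_mod_cast hVX
  have hVV1 : (1 : ℝ) ≤ ((V * V : ℕ) : ℝ) := by exact_mod_cast Nat.mul_pos hV hV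
  have hR2 : R * R = X * ((X : ℝ) / q + X / V + q) := Real.mul_self_sqrt (by positivity)
  have hR0 : 0 ≤ R := Real.sqrt_nonneg _
  -- the small terms
  have hs1 : (X : ℝ) / q ≤ R := by
    apply Real.le_sqrt_of_sq_le
    have h1 : ((X : ℝ) / q) ^ 2 = X * (X / q) * (1 / q) := by field_simp
    have h2 : (1 : ℝ) / q ≤ 1 := by rw [div_le_one hq0]; exact hqr
    have h3 : 0 ≤ (X : ℝ) * (X / q) := by positivity
    have h4 : 0 ≤ (X : ℝ) * (X / V + q) := by positivity
    rw [h1]; nlinarith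
  have hs2 : ((V * V : ℕ) : ℝ) ≤ R := by
    apply Real.le_sqrt_of_sq_le
    have h1 : ((V * V : ℕ) : ℝ) ^ 2 ≤ X := by rw [pow_two]; exact hVVX
    have h2 : (X : ℝ) * 1 ≤ X * ((X : ℝ) / q + X / V + q) := by
      apply mul_le_mul_of_nonneg_left _ hX0.le
      have : 0 ≤ (X : ℝ) / q + X / V := by positivity
      linarith
    linarith
  have hs3 : (q : ℝ) ≤ R := by
    apply Real.le_sqrt_of_sq_le
    have h1 : (q : ℝ) ^ 2 ≤ X * q := by nlinarith
    have h2 : 0 ≤ (X : ℝ) * ((X : ℝ) / q + X / V) := by positivity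
    nlinarith
  -- the blocks
  have hblock : ∀ N N₁ : ℕ, 1 ≤ N → N ≤ N₁ → N₁ ≤ 2 * N → V * V ≤ N → N₁ ≤ X →
      ‖∑ n ∈ Ioc N N₁, ((ArithmeticFunction.vonMangoldt n : ℝ) : ℂ) * ee ((n : ℝ) * α)‖ ≤
        12000 * L ^ 6 * R := by
    intro N N₁ h1 h2 h3 h4 h5
    refine (Pool.Agent.H373R2.T7.block_lin hq hcop hα N N₁ V h1 h2 h3 hV h4).trans ?_
    have hNr : (1 : ℝ) ≤ N := by exact_mod_cast h1
    have hNX : (N : ℝ) ≤ X := by exact_mod_cast h2.trans h5
    have hlN : 1 + Real.log (4 * N) ≤ L := by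
      rw [hL]
      have := Real.log_le_log (by linarith : (0 : ℝ) < 4 * N) (by linarith : (4 : ℝ) * N ≤ 4 * X)
      linarith
    have hlN0 : 0 ≤ 1 + Real.log (4 * N) := by
      have := Real.log_nonneg (by linarith : (1 : ℝ) ≤ 4 * N)
      linarith
    have hlq : 1 + Real.log q ≤ L := by
      have := Real.log_le_log hq0 hqXr
      linarith
    have hlq0 : 0 ≤ 1 + Real.log q := by
      have := Real.log_nonneg hqr
      linarith
    have hA : Real.sqrt (672 * (1 + Real.log q) * (N * ((N : ℝ) / q + N / V + q))) ≤ 26 * L * R := by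
      rw [Real.sqrt_le_left (by positivity)]
      calc 672 * (1 + Real.log q) * (N * ((N : ℝ) / q + N / V + q))
          ≤ 672 * L * (X * ((X : ℝ) / q + X / V + q)) := by gcongr
        _ ≤ 676 * (L * L) * (X * ((X : ℝ) / q + X / V + q)) := by
            apply mul_le_mul_of_nonneg_right _ (by positivity)
            nlinarith
        _ = (26 * L * R) ^ 2 := by rw [← hR2]; ring
    have hlog2 : (Nat.log 2 (V * V) + 1 : ℝ) ≤ 2 * L := by
      have h6 : (Nat.log 2 (V * V) : ℝ) * Real.log 2 ≤ Real.log X := by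
        have h7 : (2 : ℝ) ^ Nat.log 2 (V * V) ≤ ((V * V : ℕ) : ℝ) := by
          exact_mod_cast Nat.pow_log_le_self 2 (by positivity)
        have h8 : ((V * V : ℕ) : ℝ) ≤ X := by
          refine le_trans ?_ hVVX
          exact le_mul_of_one_le_left (by linarith) hVV1
        have h9 := Real.log_le_log (by positivity) (h7.trans h8)
        rwa [Real.log_pow] at h9
      have h10 := Real.log_two_gt_d9
      have h11 : (0 : ℝ) ≤ Nat.log 2 (V * V) := Nat.cast_nonneg _
      have h12 : (Nat.log 2 (V * V) : ℝ) * 0.69 ≤ (Nat.log 2 (V * V) : ℝ) * Real.log 2 :=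
        mul_le_mul_of_nonneg_left (by linarith) h11
      linarith
    have hB : 600 * (Nat.log 2 (V * V) + 1 : ℝ) * ((N : ℝ) / q + (V * V : ℕ) + q) * (1 + Real.log q) ≤
        600 * (2 * L) * (3 * R) * L := by
      have h6 : (N : ℝ) / q ≤ R := (div_le_div_of_nonneg_right hNX hq0.le).trans hs1
      have h7 : (N : ℝ) / q + (V * V : ℕ) + q ≤ 3 * R := by linarith
      gcongr
    calc 8 * (1 + Real.log (4 * N)) ^ 5 *
          Real.sqrt (672 * (1 + Real.log q) * (N * ((N : ℝ) / q + N / V + q))) +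
        3 * (1 + Real.log (4 * N)) *
          (600 * (Nat.log 2 (V * V) + 1 : ℝ) * ((N : ℝ) / q + (V * V : ℕ) + q) * (1 + Real.log q))
        ≤ 8 * L ^ 5 * (26 * L * R) + 3 * L * (600 * (2 * L) * (3 * R) * L) := by gcongr
      _ = (208 * L ^ 6 + 10800 * L ^ 3) * R := by ring
      _ ≤ 12000 * L ^ 6 * R := by
          apply mul_le_mul_of_nonneg_right _ hR0
          have h6 : L ^ 3 * 8 ≤ L ^ 3 * L ^ 3 := by
            apply mul_le_mul_of_nonneg_left _ (by positivity)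
            calc (8 : ℝ) = 2 ^ 3 := by norm_num
              _ ≤ L ^ 3 := by gcongr
          have h7 : L ^ 6 = L ^ 3 * L ^ 3 := by ring
          rw [h7]
          nlinarith [show 0 ≤ L ^ 3 by positivity]
  -- the trivial bound
  have hT : ∀ N₁, N₁ ≤ X → N₁ ≤ 2 * (V * V) →
      ‖∑ n ∈ Ioc 0 N₁, ((ArithmeticFunction.vonMangoldt n : ℝ) : ℂ) * ee ((n : ℝ) * α)‖ ≤
        2 * L * R := by
    intro N₁ h1 h2
    refine (norm_sum_le _ _).trans ?_
    calc ∑ n ∈ Ioc 0 N₁, ‖((ArithmeticFunction.vonMangoldt n : ℝ) : ℂ) * ee ((n : ℝ) * α)‖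
        ≤ ∑ n ∈ Ioc 0 N₁, L := by
          apply sum_le_sum
          intro n hn
          rw [mem_Ioc] at hn
          rw [norm_mul, norm_ee', mul_one, Complex.norm_real,
            Real.norm_of_nonneg ArithmeticFunction.vonMangoldt_nonneg]
          have h3 : (0 : ℝ) < n := by exact_mod_cast hn.1
          have h4 : (n : ℝ) ≤ X := by exact_mod_cast hn.2.trans h1
          have h5 := Real.log_le_log h3 h4
          exact (ArithmeticFunction.vonMangoldt_le_log).trans (by linarith)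
      _ = N₁ * L := by rw [sum_const, Nat.card_Ioc, nsmul_eq_mul]; simp
      _ ≤ (2 * R) * L := by
          apply mul_le_mul_of_nonneg_right _ (by linarith)
          have h3 : (N₁ : ℝ) ≤ 2 * ((V * V : ℕ) : ℝ) := by exact_mod_cast h2
          linarith
      _ = 2 * L * R := by ring
  obtain ⟨k, hk1, hk2⟩ : ∃ k : ℕ, X ≤ 2 ^ k ∧ (k : ℝ) ≤ 2 * L := by
    refine ⟨Nat.log 2 X + 1, (Nat.lt_pow_succ_log_self (by norm_num) X).le, ?_⟩
    have h6 : (Nat.log 2 X : ℝ) * Real.log 2 ≤ Real.log X := by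
      have h7 : (2 : ℝ) ^ Nat.log 2 X ≤ (X : ℝ) := by
        exact_mod_cast Nat.pow_log_le_self 2 (by omega)
      have h9 := Real.log_le_log (by positivity) h7
      rwa [Real.log_pow] at h9
    have h10 := Real.log_two_gt_d9
    have h11 : (0 : ℝ) ≤ Nat.log 2 X := Nat.cast_nonneg _
    have h12 : (Nat.log 2 X : ℝ) * 0.69 ≤ (Nat.log 2 X : ℝ) * Real.log 2 :=
      mul_le_mul_of_nonneg_left (by linarith) h11
    push_cast
    linarith
  have h := block_sum (fun n => ((ArithmeticFunction.vonMangoldt n : ℝ) : ℂ) * ee ((n : ℝ) * α)) X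
    (V * V) (Nat.mul_pos hV hV) (2 * L * R) (12000 * L ^ 6 * R) (by positivity) hT hblock k N'
    (hN'.trans hk1) hN'
  refine h.trans ?_
  calc 2 * L * R + k * (12000 * L ^ 6 * R) ≤ 2 * L * R + (2 * L) * (12000 * L ^ 6 * R) := by gcongr
    _ = (2 * L + 24000 * L ^ 7) * R := by ring
    _ ≤ 30000 * L ^ 7 * R := by
        apply mul_le_mul_of_nonneg_right _ hR0
        have h6 : L * 1 ≤ L * L ^ 6 := by
          apply mul_le_mul_of_nonneg_left _ (by positivity)
          exact one_le_pow₀ (by linarith)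
        have h7 : L ^ 7 = L * L ^ 6 := by ring
        rw [h7]
        nlinarith [show 0 ≤ L ^ 6 by positivity]

/-- the logarithmic weights of the primes -/
noncomputable def lp (n : ℕ) : ℝ := if n.Prime then Real.log n else 0

/-- from `Λ` to the primes -/
lemma lp_sum (X : ℕ) (hX : 1 ≤ X) (α B : ℝ) (N' : ℕ) (hN' : N' ≤ X)
    (h : ‖∑ n ∈ Ioc 0 N', ((ArithmeticFunction.vonMangoldt n : ℝ) : ℂ) * ee ((n : ℝ) * α)‖ ≤ B) :
    ‖∑ n ∈ Ioc 0 N', (lp n : ℂ) * ee ((n : ℝ) * α)‖ ≤ B + 2 * √X * Real.log X := by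
  have hXr : (1 : ℝ) ≤ X := by exact_mod_cast hX
  have h1 : ∑ n ∈ Ioc 0 N', (lp n : ℂ) * ee ((n : ℝ) * α) =
      ∑ n ∈ Ioc 0 N', ((ArithmeticFunction.vonMangoldt n : ℝ) : ℂ) * ee ((n : ℝ) * α) -
      ∑ n ∈ (Ioc 0 N').filter (fun n => ¬ n.Prime),
        ((ArithmeticFunction.vonMangoldt n : ℝ) : ℂ) * ee ((n : ℝ) * α) := by
    rw [sum_filter, ← sum_sub_distrib]
    apply sum_congr rfl
    intro n _
    unfold lp
    by_cases hp : n.Prime
    · rw [if_pos hp, if_neg (by simpa using hp), ArithmeticFunction.vonMangoldt_apply_prime hp,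
        sub_zero]
    · rw [if_neg hp, if_pos hp]; simp
  have h2 : ‖∑ n ∈ (Ioc 0 N').filter (fun n => ¬ n.Prime),
        ((ArithmeticFunction.vonMangoldt n : ℝ) : ℂ) * ee ((n : ℝ) * α)‖ ≤ 2 * √X * Real.log X := by
    refine (norm_sum_le _ _).trans ?_
    have h3 : ∀ n ∈ (Ioc 0 N').filter (fun n => ¬ n.Prime),
        ‖((ArithmeticFunction.vonMangoldt n : ℝ) : ℂ) * ee ((n : ℝ) * α)‖ =
          ArithmeticFunction.vonMangoldt n := by
      intro n _
      rw [norm_mul, norm_ee', mul_one, Complex.norm_real,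
        Real.norm_of_nonneg ArithmeticFunction.vonMangoldt_nonneg]
    rw [sum_congr rfl h3]
    have h4 : ∑ n ∈ (Ioc 0 N').filter (fun n => ¬ n.Prime), ArithmeticFunction.vonMangoldt n ≤
        ∑ n ∈ (Ioc 0 X).filter (fun n => ¬ n.Prime), ArithmeticFunction.vonMangoldt n := by
      apply sum_le_sum_of_subset_of_nonneg
      · apply filter_subset_filter
        exact Ioc_subset_Ioc_right hN'
      · intros; exact ArithmeticFunction.vonMangoldt_nonneg
    refine h4.trans ?_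
    have h5 := Chebyshev.psi_sub_theta_eq_sum_not_prime (X : ℝ)
    rw [Nat.floor_natCast] at h5
    rw [← h5]
    exact Chebyshev.psi_sub_theta_le hXr
  rw [h1]
  exact (norm_sub_le _ _).trans (add_le_add h h2)

end Pool.Agent.Helper21K9.PM
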