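import Pool.Agent.Helper21K9.PM.Exp

/-!
# Exponential sums over primes with a power saving, unweighted
-/

set_option autoImplicit false

namespace Pool.Agent.Helper21K9.PM

open Finset
open Pool.Agent.H807R2.Dav

/-- decreasing weights -/
noncomputable def wt (n : ℕ) : ℝ := if n ≤ 2 then 0 else 1 / Real.log 2 - 1 / Real.log n

lemma wt_mono : Monotone wt := by
  intro a b hab
  unfold wt
  have hl2 : 0 < Real.log 2 := Real.log_pos (by norm_num)
  split_ifs with h1 h2 h2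
  · exact le_rfl
  · have h3 : (2 : ℝ) ≤ b := by exact_mod_cast (by omega : 2 ≤ b)
    have h4 := Real.log_le_log (by norm_num) h3
    have h5 := one_div_le_one_div_of_le hl2 h4
    linarith
  · omega
  · have h3 : (2 : ℝ) ≤ a := by exact_mod_cast (by omega : 2 ≤ a)
    have h4 := Real.log_le_log (by norm_num) h3
    have h5 := Real.log_le_log (by linarith) (by exact_mod_cast hab : (a : ℝ) ≤ b)
    have h6 := one_div_le_one_div_of_le (by linarith) h5
    linarith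

lemma wt_nonneg (n : ℕ) : 0 ≤ wt n := by
  have h : wt 0 ≤ wt n := wt_mono (Nat.zero_le n)
  have h0 : wt 0 = 0 := by simp [wt]
  linarith

lemma wt_le (n : ℕ) : wt n ≤ 1 / Real.log 2 := by
  have hl2 : 0 < Real.log 2 := Real.log_pos (by norm_num)
  unfold wt
  split_ifs with h
  · positivity
  · have h3 : (2 : ℝ) ≤ n := by exact_mod_cast (by omega : 2 ≤ n)
    have h4 := Real.log_nonneg (by linarith : (1 : ℝ) ≤ n)
    have : 0 ≤ 1 / Real.log n := by positivity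
    linarith

lemma prime_wt (n : ℕ) : (lp n : ℂ) * ((1 / Real.log 2 : ℝ) : ℂ) - (wt n : ℂ) * lp n =
    if n.Prime then 1 else 0 := by
  unfold lp wt
  have hl2 : 0 < Real.log 2 := Real.log_pos (by norm_num)
  split_ifs with h1 h2
  · have h3 : n = 2 := le_antisymm h2 h1.two_le
    subst h3
    have : ((Real.log 2 : ℝ) : ℂ) ≠ 0 := Complex.ofReal_ne_zero.2 hl2.ne'
    simp only [Complex.ofReal_div, Complex.ofReal_one, Complex.ofReal_zero, Nat.cast_ofNat]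
    field_simp
    ring
  · have h3 : 0 < Real.log n := Real.log_pos (by exact_mod_cast h1.one_lt)
    have h4 : ((Real.log 2 : ℝ) : ℂ) ≠ 0 := by exact_mod_cast hl2.ne'
    have h5 : ((Real.log n : ℝ) : ℂ) ≠ 0 := Complex.ofReal_ne_zero.2 h3.ne'
    simp only [Complex.ofReal_sub, Complex.ofReal_div, Complex.ofReal_one]
    field_simp
    ring
  · simp
  · simp

/-- removing the weights -/
lemma prime_sum (X : ℕ) (α B : ℝ)
    (h : ∀ N', N' ≤ X → ‖∑ n ∈ Ioc 0 N', (lp n : ℂ) * ee ((n : ℝ) * α)‖ ≤ B) :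
    ‖∑ p ∈ (range (X + 1)).filter Nat.Prime, ee ((p : ℝ) * α)‖ ≤ 5 * B := by
  have hl2 : 0.69 < Real.log 2 := by have := Real.log_two_gt_d9; linarith
  have hB0 : 0 ≤ B := (norm_nonneg _).trans (h 0 (Nat.zero_le _))
  have h1 := Pool.Agent.H373R2.T3.abel_Ioc 0 X (Nat.zero_le _) wt
    (fun n => (lp n : ℂ) * ee ((n : ℝ) * α)) B wt_mono wt_nonneg h
  have h2 : ∑ p ∈ (range (X + 1)).filter Nat.Prime, ee ((p : ℝ) * α) =
      ((1 / Real.log 2 : ℝ) : ℂ) * (∑ n ∈ Ioc 0 X, (lp n : ℂ) * ee ((n : ℝ) * α)) -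
      ∑ n ∈ Ioc 0 X, (wt n : ℂ) * ((lp n : ℂ) * ee ((n : ℝ) * α)) := by
    have h3 : (range (X + 1)).filter Nat.Prime = (Ioc 0 X).filter Nat.Prime := by
      ext p
      rw [mem_filter, mem_filter, mem_range, mem_Ioc]
      constructor
      · rintro ⟨h4, h5⟩
        exact ⟨⟨h5.pos, by omega⟩, h5⟩
      · rintro ⟨⟨h4, h5⟩, h6⟩
        exact ⟨by omega, h6⟩
    rw [h3, sum_filter, mul_sum, ← sum_sub_distrib]
    apply sum_congr rfl
    intro n _
    have h4 : ((1 / Real.log 2 : ℝ) : ℂ) * ((lp n : ℂ) * ee ((n : ℝ) * α)) -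
        (wt n : ℂ) * ((lp n : ℂ) * ee ((n : ℝ) * α)) =
        ((lp n : ℂ) * ((1 / Real.log 2 : ℝ) : ℂ) - (wt n : ℂ) * lp n) * ee ((n : ℝ) * α) := by ring
    rw [h4, prime_wt]
    split_ifs <;> simp
  rw [h2]
  refine (norm_sub_le _ _).trans ?_
  rw [norm_mul, Complex.norm_real, Real.norm_of_nonneg (by positivity)]
  have h3 : 1 / Real.log 2 ≤ 1.5 := by
    rw [div_le_iff₀ (by linarith)]; linarith
  have h4 := wt_le X
  have h5 := wt_nonneg X
  have h6 := h X le_rfl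
  calc 1 / Real.log 2 * ‖∑ n ∈ Ioc 0 X, (lp n : ℂ) * ee ((n : ℝ) * α)‖ +
        ‖∑ n ∈ Ioc 0 X, (wt n : ℂ) * ((lp n : ℂ) * ee ((n : ℝ) * α))‖
      ≤ 1.5 * B + 2 * wt X * B := by
        apply add_le_add _ h1
        exact mul_le_mul h3 h6 (norm_nonneg _) (by norm_num)
    _ ≤ 1.5 * B + 2 * 1.5 * B := by
        have : wt X ≤ 1.5 := h4.trans h3
        gcongr
    _ ≤ 5 * B := by linarith

/-- logarithms -/
lemma log_pow_le (k : ℕ) (ε : ℝ) (hε : 0 < ε) : ∃ K : ℝ, 1 ≤ K ∧ ∀ X : ℕ, 1 ≤ X →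
    (1 + Real.log (4 * X)) ^ k ≤ K * (X : ℝ) ^ ε := by
  -- `log x ≤ x ^ δ / δ`
  rcases Nat.eq_zero_or_pos k with hk | hk
  · refine ⟨1, le_rfl, fun X hX => ?_⟩
    rw [hk, pow_zero, one_mul]
    exact Real.one_le_rpow (by exact_mod_cast hX) hε.le
  · set δ : ℝ := ε / k with hδ
    have hkr : (0 : ℝ) < k := by exact_mod_cast hk
    have hδ0 : 0 < δ := by positivity
    refine ⟨(3 + 1 / δ) ^ k, one_le_pow₀ (by have : 0 < 1 / δ := by positivity
                                             linarith), fun X hX => ?_⟩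
    have hXr : (1 : ℝ) ≤ X := by exact_mod_cast hX
    have h1 : Real.log (4 * X) = Real.log 4 + Real.log X := Real.log_mul (by norm_num) (by linarith)
    have h2 : Real.log 4 ≤ 2 := by
      have h1 : Real.log 4 = 2 * Real.log 2 := by
        rw [show (4 : ℝ) = 2 ^ 2 by norm_num, Real.log_pow]; push_cast; ring
      have := Real.log_two_lt_d9
      linarith
    have h3 := Real.log_le_rpow_div (by linarith : (0 : ℝ) ≤ X) hδ0
    have h4 : 1 ≤ (X : ℝ) ^ δ := Real.one_le_rpow hXr hδ0.le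
    have h5 : 1 + Real.log (4 * X) ≤ (3 + 1 / δ) * (X : ℝ) ^ δ := by
      rw [h1]
      have : (3 + 1 / δ) * (X : ℝ) ^ δ = 3 * (X : ℝ) ^ δ + (X : ℝ) ^ δ / δ := by ring
      rw [this]; linarith
    have h6 : 0 ≤ 1 + Real.log (4 * X) := by
      have := Real.log_nonneg (by linarith : (1 : ℝ) ≤ 4 * X)
      linarith
    calc (1 + Real.log (4 * X)) ^ k ≤ ((3 + 1 / δ) * (X : ℝ) ^ δ) ^ k := pow_le_pow_left₀ h6 h5 k
      _ = (3 + 1 / δ) ^ k * (X : ℝ) ^ ε := by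
          rw [mul_pow, ← Real.rpow_natCast ((X : ℝ) ^ δ), ← Real.rpow_mul (by linarith)]
          congr 2
          rw [hδ]; field_simp

/-- the fourth root -/
lemma exists_fourth (X : ℕ) (hX : 1 ≤ X) : ∃ V : ℕ, 1 ≤ V ∧ (V * V) * (V * V) ≤ X ∧
    (X : ℝ) ^ (1 / 4 : ℝ) ≤ 2 * V := by
  set V := Nat.sqrt (Nat.sqrt X) with hV
  have hVV : V * V ≤ Nat.sqrt X := Nat.sqrt_le _
  have hSN : Nat.sqrt X * Nat.sqrt X ≤ X := Nat.sqrt_le _
  have h2 : Nat.sqrt X < (V + 1) * (V + 1) := Nat.lt_succ_sqrt _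
  have h3 : X < (Nat.sqrt X + 1) * (Nat.sqrt X + 1) := Nat.lt_succ_sqrt X
  have h4 : X < ((V + 1) * (V + 1)) * ((V + 1) * (V + 1)) :=
    lt_of_lt_of_le h3 (Nat.mul_le_mul (by omega) (by omega))
  have hV1 : 1 ≤ V := by
    have h5 : 1 ≤ Nat.sqrt X := by
      rw [Nat.le_sqrt]; omega
    rw [hV, Nat.le_sqrt]; omega
  refine ⟨V, hV1, (Nat.mul_le_mul hVV hVV).trans hSN, ?_⟩
  have h5 : (X : ℝ) ≤ (2 * (V : ℝ)) ^ (4 : ℕ) := by
    have h6 : X ≤ ((2 * V) * (2 * V)) * ((2 * V) * (2 * V)) := by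
      refine h4.le.trans ?_
      apply Nat.mul_le_mul <;> apply Nat.mul_le_mul <;> omega
    have h7 : (X : ℝ) ≤ ((((2 * V) * (2 * V)) * ((2 * V) * (2 * V)) : ℕ) : ℝ) := by exact_mod_cast h6
    refine h7.trans (le_of_eq ?_)
    push_cast; ring
  calc (X : ℝ) ^ (1 / 4 : ℝ) ≤ ((2 * (V : ℝ)) ^ (4 : ℕ)) ^ (1 / 4 : ℝ) :=
        Real.rpow_le_rpow (by positivity) h5 (by norm_num)
    _ = 2 * V := by
        rw [← Real.rpow_natCast, ← Real.rpow_mul (by positivity)]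
        norm_num

/-- **Exponential sums over primes** with a power saving -/
theorem primes_exp (ε : ℝ) (hε : 0 < ε) : ∃ K : ℝ, 1 ≤ K ∧ ∀ X : ℕ, 1 ≤ X → ∀ q : ℕ, 1 ≤ q →
    ∀ c : ℤ, IsCoprime c (q : ℤ) → ∀ α : ℝ, |α - c / q| ≤ 1 / (q : ℝ) ^ 2 →
    ‖∑ p ∈ (range (X + 1)).filter Nat.Prime, ee ((p : ℝ) * α)‖ ≤
      K * (X : ℝ) ^ ε * √(X * ((X : ℝ) / q + (X : ℝ) ^ (3 / 4 : ℝ) + q)) := by
  obtain ⟨K₀, hK₀, hlog⟩ := log_pow_le 7 ε hε
  refine ⟨400000 * K₀, by linarith, fun X hX q hq c hcop α hα => ?_⟩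
  have hXr : (1 : ℝ) ≤ X := by exact_mod_cast hX
  have hX0 : (0 : ℝ) < X := by linarith
  have hqr : (1 : ℝ) ≤ q := by exact_mod_cast hq
  have hXε : 1 ≤ (X : ℝ) ^ ε := Real.one_le_rpow hXr hε.le
  rcases Nat.lt_or_ge X q with hqX | hqX
  · -- trivial
    have h1 : ‖∑ p ∈ (range (X + 1)).filter Nat.Prime, ee ((p : ℝ) * α)‖ ≤ X := by
      refine (norm_sum_le _ _).trans ?_
      rw [sum_congr rfl fun p _ => norm_ee' _, sum_const, nsmul_eq_mul, mul_one]
      have h3 : (range (X + 1)).filter Nat.Prime ⊆ Ioc 0 X := by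
        intro p hp
        rw [mem_filter, mem_range] at hp
        rw [mem_Ioc]
        exact ⟨hp.2.pos, by omega⟩
      have h4 := card_le_card h3
      rw [Nat.card_Ioc] at h4
      exact_mod_cast h4
    refine h1.trans ?_
    have h2 : (X : ℝ) ≤ √(X * ((X : ℝ) / q + (X : ℝ) ^ (3 / 4 : ℝ) + q)) := by
      apply Real.le_sqrt_of_sq_le
      have h3 : (X : ℝ) ≤ q := by exact_mod_cast hqX.le
      have h4 : 0 ≤ (X : ℝ) / q + (X : ℝ) ^ (3 / 4 : ℝ) := by positivity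
      nlinarith
    calc (X : ℝ) = 1 * 1 * X := by ring
      _ ≤ (400000 * K₀) * (X : ℝ) ^ ε * √(X * ((X : ℝ) / q + (X : ℝ) ^ (3 / 4 : ℝ) + q)) := by
          gcongr
          linarith
  · obtain ⟨V, hV1, hVX, hV2⟩ := exists_fourth X hX
    have hV0 : (0 : ℝ) < V := by exact_mod_cast hV1
    set L : ℝ := 1 + Real.log (4 * X) with hL
    have hL1 : 1 ≤ L := by
      have := Real.log_nonneg (by linarith : (1 : ℝ) ≤ 4 * X)
      linarith
    have hlXL : Real.log X ≤ L := by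
      have h1 := Real.log_le_log hX0 (by linarith : (X : ℝ) ≤ 4 * X)
      linarith
    set R : ℝ := √(X * ((X : ℝ) / q + (X : ℝ) ^ (3 / 4 : ℝ) + q)) with hR
    have hR0 : 0 ≤ R := Real.sqrt_nonneg _
    have hXV : (X : ℝ) / V ≤ 2 * (X : ℝ) ^ (3 / 4 : ℝ) := by
      rw [div_le_iff₀ hV0]
      calc (X : ℝ) = (X : ℝ) ^ (3 / 4 : ℝ) * (X : ℝ) ^ (1 / 4 : ℝ) := by
            rw [← Real.rpow_add hX0]; norm_num
        _ ≤ (X : ℝ) ^ (3 / 4 : ℝ) * (2 * V) := by gcongr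
        _ = 2 * (X : ℝ) ^ (3 / 4 : ℝ) * V := by ring
    have hRR : √(X * ((X : ℝ) / q + X / V + q)) ≤ 2 * R := by
      rw [Real.sqrt_le_left (by positivity)]
      have h1 : R * R = X * ((X : ℝ) / q + (X : ℝ) ^ (3 / 4 : ℝ) + q) :=
        Real.mul_self_sqrt (by positivity)
      have h2 : (2 * R) ^ 2 = 4 * (X * ((X : ℝ) / q + (X : ℝ) ^ (3 / 4 : ℝ) + q)) := by
        rw [← h1]; ring
      rw [h2]
      have h3 : (X : ℝ) / q + X / V + q ≤ 4 * ((X : ℝ) / q + (X : ℝ) ^ (3 / 4 : ℝ) + q) := by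
        have : 0 ≤ (X : ℝ) / q := by positivity
        have : 0 ≤ (X : ℝ) ^ (3 / 4 : ℝ) := by positivity
        linarith
      calc (X : ℝ) * ((X : ℝ) / q + X / V + q) ≤ X * (4 * ((X : ℝ) / q + (X : ℝ) ^ (3 / 4 : ℝ) + q)) := by
            gcongr
        _ = _ := by ring
    have hsX : √X ≤ R := by
      apply Real.sqrt_le_sqrt
      have h1 : 0 ≤ (X : ℝ) / q + (X : ℝ) ^ (3 / 4 : ℝ) := by positivity
      nlinarith
    have hlam : ∀ N', N' ≤ X → ‖∑ n ∈ Ioc 0 N', (lp n : ℂ) * ee ((n : ℝ) * α)‖ ≤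
        70000 * L ^ 7 * R := by
      intro N' hN'
      refine (lp_sum X hX α _ N' hN' (lam_sum X hX q hq hqX c hcop α hα V hV1 hVX N' hN')).trans ?_
      calc 30000 * (1 + Real.log (4 * X)) ^ 7 * √(X * ((X : ℝ) / q + X / V + q)) +
            2 * √X * Real.log X ≤ 30000 * L ^ 7 * (2 * R) + 2 * R * L := by
              apply add_le_add
              · gcongr
              · gcongr
        _ ≤ 70000 * L ^ 7 * R := by
            have h1 : L ≤ L ^ 7 := by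
              calc L = L ^ 1 := (pow_one _).symm
                _ ≤ L ^ 7 := pow_le_pow_right₀ hL1 (by norm_num)
            have h2 : 2 * R * L ≤ 2 * R * L ^ 7 := by gcongr
            have h3 : 0 ≤ R * L ^ 7 := by positivity
            nlinarith
    refine (prime_sum X α _ hlam).trans ?_
    have h1 := hlog X hX
    calc 5 * (70000 * L ^ 7 * R) = 350000 * L ^ 7 * R := by ring
      _ ≤ 350000 * (K₀ * (X : ℝ) ^ ε) * R := by gcongr
      _ = 350000 * K₀ * (X : ℝ) ^ ε * R := by ring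
      _ ≤ 400000 * K₀ * (X : ℝ) ^ ε * R := by gcongr; norm_num

end Pool.Agent.Helper21K9.PM
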