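import Pool.Agent.Helper21K9.PM.Irr

/-!
# Words of digits in the prime multiples of a number: final form
-/

set_option autoImplicit false

namespace Pool.Agent.Helper21K9.PM

open Finset
open Pool.Agent.H807R2.Dav Pool.Agent.W226.MP Pool.Agent.TH869.LPD

/-- the word of `k` digits with the value `W` stands in `y` right after the `j`-th digit -/
def Stands (b k W : ℕ) (y : ℝ) (j : ℕ) : Prop :=
  ⌊(b : ℝ) ^ (j + k) * y⌋ % ((b : ℤ) ^ k) = (W : ℤ)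

lemma occursAt_stands (b k : ℕ) (hb : 2 ≤ b) (w : Fin k → Fin b) (y : ℝ) (p : ℕ) :
    OccursAt b k w y p ↔ Stands b k (Pool.Agent.W226.MP.val b (Pool.Agent.W226.MP.ext b k w) k) y p := by
  rw [occursAt_val b k hb, Stands, mul_comm]

lemma ncard_primes (X : ℕ) (P : ℕ → Prop) (T : Finset ℕ)
    (hT : ∀ l, l ∈ T ↔ l < np X ∧ P (pr l)) :
    {p : ℕ | p.Prime ∧ p ≤ X ∧ P p}.ncard = T.card := by
  classical
  have h1 : {p : ℕ | p.Prime ∧ p ≤ X ∧ P p} = ((T.image pr : Finset ℕ) : Set ℕ) := by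
    ext p
    rw [mem_coe, mem_image]
    constructor
    · rintro ⟨h1, h2, h3⟩
      have h4 : p ∈ (range (np X)).image pr := by
        rw [image_pr, mem_filter, mem_range]; exact ⟨by omega, h1⟩
      obtain ⟨l, hl, rfl⟩ := mem_image.1 h4
      exact ⟨l, (hT l).2 ⟨mem_range.1 hl, h3⟩, rfl⟩
    · rintro ⟨l, hl, rfl⟩
      obtain ⟨h2, h3⟩ := (hT l).1 hl
      have h4 : pr l ∈ (range (np X)).image pr := mem_image_of_mem _ (mem_range.2 h2)
      rw [image_pr, mem_filter, mem_range] at h4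
      exact ⟨h4.2, by omega, h3⟩
  rw [h1, Set.ncard_coe_finset, card_image_of_injective _ pr_inj]

lemma np_eq (X : ℕ) : np X = Nat.primeCounting X := rfl

lemma occ_eq (b k : ℕ) (hb : 2 ≤ b) (w : Fin k → Fin b) (y : ℝ) (s l : ℕ) :
    occ b k w y s l = {j : ℕ | j < l ∧
      Stands b k (Pool.Agent.W226.MP.val b (Pool.Agent.W226.MP.ext b k w) k) y (s + j)}.ncard := by
  classical
  unfold occ
  rw [← Set.ncard_coe_finset]
  congr 1
  apply Set.ext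
  intro j
  rw [mem_coe, mem_filter, mem_range, occursAt_stands b k hb]
  rfl

lemma exists_words (b k : ℕ) (hb : 2 ≤ b) (Q : ℕ → Prop) :
    (∃ W < b ^ k, Q W) ↔ ∃ w : Fin k → Fin b,
      Q (Pool.Agent.W226.MP.val b (Pool.Agent.W226.MP.ext b k w) k) := by
  constructor
  · rintro ⟨W, hW, h⟩
    obtain ⟨w, hw⟩ := exists_word b k hb W hW
    exact ⟨w, by rw [hw]; exact h⟩
  · rintro ⟨w, h⟩
    exact ⟨_, val_lt b _ (ext_lt b k hb w) k, h⟩

/-- at a good place -/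
theorem good_final : ∃ K : ℝ, 1 ≤ K ∧ ∀ b : ℕ, 2 ≤ b → ∀ (X s : ℕ) (x : ℝ), 2 ≤ X →
    GoodP b X x s → ∀ y : ℝ,
    (∀ u v : ℝ, 0 ≤ u → u ≤ v → v ≤ 1 →
      |({p : ℕ | p.Prime ∧ p ≤ X ∧ u ≤ Int.fract ((b : ℝ) ^ s * (p * x + y)) ∧
        Int.fract ((b : ℝ) ^ s * (p * x + y)) < v}.ncard : ℝ) - (v - u) * Nat.primeCounting X| ≤
        K * √b * (X : ℝ) ^ (39 / 40 : ℝ)) ∧
    (∀ k L : ℕ, 1 ≤ k → k ≤ L → (b : ℝ) ^ L * √b ≤ (X : ℝ) ^ (1 / 80 : ℝ) →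
      ∀ ε : ℝ, 0 < ε → ε ≤ 1 →
      ({p : ℕ | p.Prime ∧ p ≤ X ∧ ∃ W < b ^ k, ε * (L + 1 - k : ℕ) + k <
        |({j : ℕ | j < L + 1 - k ∧ Stands b k W (p * x + y) (s + j)}.ncard : ℝ) -
          (L + 1 - k : ℕ) / (b : ℝ) ^ k|}.ncard : ℝ)
        ≤ K * k * (b : ℝ) ^ k * Real.exp (-(ε ^ 2 / 4) * ((L + 1 - k) / k : ℕ)) *
          Nat.primeCounting X) := by
  classical
  obtain ⟨K, hK, hmain⟩ := main
  refine ⟨K, hK, fun b hb X s x hX hs y => ?_⟩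
  obtain ⟨h1, h2, _, _⟩ := hmain b hb X s x (by omega) hs y
  refine ⟨fun u v hu huv hv => ?_, fun k L hk hkL hL ε hε hε1 => ?_⟩
  · have h3 := h1 u v hu huv hv
    have h4 := ncard_primes X (fun p => u ≤ Int.fract ((b : ℝ) ^ s * (p * x + y)) ∧
        Int.fract ((b : ℝ) ^ s * (p * x + y)) < v)
      ((range (np X)).filter (fun l : ℕ => u ≤ Int.fract ((b : ℝ) ^ s * seqp x y l) ∧
        Int.fract ((b : ℝ) ^ s * seqp x y l) < v)) (by
          intro l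
          rw [mem_filter, mem_range]
          rfl)
    rw [h4, ← np_eq]
    exact h3
  · have h3 := h2 hX k L hk hkL hL ε hε hε1
    have h4 := ncard_primes X (fun p => ∃ W < b ^ k, ε * (L + 1 - k : ℕ) + k <
        |({j : ℕ | j < L + 1 - k ∧ Stands b k W (p * x + y) (s + j)}.ncard : ℝ) -
          (L + 1 - k : ℕ) / (b : ℝ) ^ k|)
      ((range (np X)).filter (fun l : ℕ => ∃ w : Fin k → Fin b, ε * (L + 1 - k : ℕ) + k <
        |(occ b k w (seqp x y l) s (L + 1 - k) : ℝ) - (L + 1 - k : ℕ) / (b : ℝ) ^ k|)) (by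
        intro l
        rw [mem_filter, mem_range, exists_words b k hb]
        apply and_congr Iff.rfl
        apply exists_congr
        intro w
        rw [← occ_eq b k hb]
        rfl)
    rw [h4, ← np_eq]
    exact h3

/-- exceptional primes -/
theorem inf_final : ∃ K : ℝ, 1 ≤ K ∧ ∀ x : ℝ, Irrational x → ∀ b k X : ℕ, 2 ≤ b → 1 ≤ k →
    1 ≤ X → ∀ y : ℝ,
    ({p : ℕ | p.Prime ∧ p ≤ X ∧ ∃ W < b ^ k, {j : ℕ | Stands b k W (p * x + y) j}.Finite}.ncard : ℝ) ≤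
      K * (b : ℝ) ^ k * ((b : ℝ) ^ 40 / X) ^ (1 / (160 * k * (b : ℝ) ^ k * Real.log b)) *
        Nat.primeCounting X := by
  classical
  obtain ⟨K, hK, hmain⟩ := inf_words
  refine ⟨K, hK, fun x hx b k X hb hk hX y => ?_⟩
  have h3 := hmain x hx b k X hb hk hX y
  have h5 := ncard_primes X (fun p => ∃ W < b ^ k, {j : ℕ | Stands b k W (p * x + y) j}.Finite)
    ((range (np X)).filter (fun l : ℕ => ∃ w : Fin k → Fin b,
      {p : ℕ | OccursAt b k w (seqp x y l) p}.Finite)) (by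
      intro l
      rw [mem_filter, mem_range, exists_words b k hb]
      apply and_congr Iff.rfl
      apply exists_congr
      intro w
      have h4 : {j : ℕ | Stands b k (Pool.Agent.W226.MP.val b (Pool.Agent.W226.MP.ext b k w) k)
          (pr l * x + y) j} = {p : ℕ | OccursAt b k w (seqp x y l) p} := by
        apply Set.ext
        intro j
        exact (occursAt_stands b k hb w (seqp x y l) j).symm
      rw [h4])
  rw [h5, ← np_eq]
  exact h3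

/-- a small prime -/
theorem small_final : ∃ K : ℝ, 1 ≤ K ∧ ∀ x : ℝ, Irrational x → ∀ b k W : ℕ, 2 ≤ b →
    W < b ^ k → ∀ y : ℝ, ∃ p : ℕ, p.Prime ∧ (p : ℝ) ≤ K * (b : ℝ) ^ (41 * (k + 1)) ∧
      ∀ N : ℕ, ∃ j : ℕ, N ≤ j ∧ Stands b k W (p * x + y) j := by
  obtain ⟨K, hK, hmain⟩ := small_prime
  refine ⟨K, hK, fun x hx b k W hb hW y => ?_⟩
  obtain ⟨w, hw⟩ := exists_word b k hb W hW
  obtain ⟨p, h1, h2, h3⟩ := hmain x hx b k hb y w
  refine ⟨p, h1, h2, fun N => ?_⟩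
  obtain ⟨j, h4, h5⟩ := h3 N
  rw [occursAt_stands b k hb, hw] at h5
  exact ⟨j, h4, h5⟩

/-- everything for numbers with a measure of irrationality -/
theorem measure_final : ∃ K : ℝ, 1 ≤ K ∧ ∀ (x κ c0 : ℝ), 0 < κ → 0 < c0 →
    (∀ q : ℕ, 1 ≤ q → ∀ p : ℤ, c0 ≤ (q : ℝ) ^ κ * |q * x - p|) →
    ∀ b X S : ℕ, 2 ≤ b → 2 ≤ X → ∃ s : ℕ, S ≤ s ∧
      (s : ℝ) ≤ (1 + κ) * S + κ / 2 * (Real.log X / Real.log b) + (|Real.log c0| / Real.log 2 + 1) ∧
      ∀ y : ℝ,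
      (∀ u v : ℝ, 0 ≤ u → u ≤ v → v ≤ 1 →
        |({p : ℕ | p.Prime ∧ p ≤ X ∧ u ≤ Int.fract ((b : ℝ) ^ s * (p * x + y)) ∧
          Int.fract ((b : ℝ) ^ s * (p * x + y)) < v}.ncard : ℝ) - (v - u) * Nat.primeCounting X| ≤
          K * √b * (X : ℝ) ^ (39 / 40 : ℝ)) ∧
      (∀ k L : ℕ, 1 ≤ k → k ≤ L → (b : ℝ) ^ L * √b ≤ (X : ℝ) ^ (1 / 80 : ℝ) →
        ∀ ε : ℝ, 0 < ε → ε ≤ 1 →
        ({p : ℕ | p.Prime ∧ p ≤ X ∧ ∃ W < b ^ k, ε * (L + 1 - k : ℕ) + k <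
          |({j : ℕ | j < L + 1 - k ∧ Stands b k W (p * x + y) (s + j)}.ncard : ℝ) -
            (L + 1 - k : ℕ) / (b : ℝ) ^ k|}.ncard : ℝ)
          ≤ K * k * (b : ℝ) ^ k * Real.exp (-(ε ^ 2 / 4) * ((L + 1 - k) / k : ℕ)) *
            Nat.primeCounting X) := by
  obtain ⟨K, hK, hmain⟩ := good_final
  refine ⟨K, hK, fun x κ c0 hκ hc0 hx b X S hb hX => ?_⟩
  have hXr : (2 : ℝ) ≤ X := by exact_mod_cast hX
  have hX0 : (0 : ℝ) < X := by linarith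
  have hbr : (2 : ℝ) ≤ b := by exact_mod_cast hb
  have hU1 : 1 ≤ √(X : ℝ) := Real.one_le_sqrt.2 (by linarith)
  obtain ⟨s, h1, h2, h3⟩ := good_place x κ c0 hκ hc0 hx b hb 1 one_ne_zero (√X)
    (1 / (((b : ℝ) + 1) * √X)) hU1 (by positivity) (by field_simp; exact le_rfl) S
  refine ⟨s, h1, ?_, ?_⟩
  · refine h2.trans (le_of_eq ?_)
    simp only [Int.cast_one, abs_one, mul_one]
    rw [Real.log_sqrt hX0.le]
    ring
  · rw [Int.cast_one, one_mul] at h3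
    exact hmain b hb X s x hX h3

end Pool.Agent.Helper21K9.PM
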