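import Pool.Agent.Helper21K9.PM.Main

/-!
# Words of digits in the prime multiples of an irrational number
-/

set_option autoImplicit false

namespace Pool.Agent.Helper21K9.PM

open Finset
open Pool.Agent.H807R2.Dav Pool.Agent.W226.MP Pool.Agent.TH869.LPD

open Classical in
/-- all but few prime multiples contain all words infinitely often -/
theorem inf_words : ∃ K : ℝ, 1 ≤ K ∧ ∀ x : ℝ, Irrational x → ∀ b k X : ℕ, 2 ≤ b → 1 ≤ k →
    1 ≤ X → ∀ y : ℝ,
    (((range (np X)).filter (fun l : ℕ => ∃ w : Fin k → Fin b,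
      {p : ℕ | OccursAt b k w (seqp x y l) p}.Finite)).card : ℝ) ≤
      K * (b : ℝ) ^ k * ((b : ℝ) ^ 40 / X) ^ (1 / (160 * k * (b : ℝ) ^ k * Real.log b)) * np X := by
  obtain ⟨K, hK, hmain⟩ := main
  refine ⟨2 * K, by linarith, fun x hx b k X hb hk hX y => ?_⟩
  have hbr : (2 : ℝ) ≤ b := by exact_mod_cast hb
  have hb0 : (0 : ℝ) < b := by linarith
  have hXr : (1 : ℝ) ≤ X := by exact_mod_cast hX
  have hX0 : (0 : ℝ) < X := by linarith
  have hkr : (1 : ℝ) ≤ k := by exact_mod_cast hk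
  have hlb : 0 < Real.log b := Real.log_pos (by linarith)
  set E : ℝ := 1 / (160 * k * (b : ℝ) ^ k * Real.log b) with hE
  have hE0 : 0 < E := by positivity
  have hbk : (1 : ℝ) ≤ (b : ℝ) ^ k := one_le_pow₀ (by linarith)
  have hn0 : (0 : ℝ) ≤ np X := Nat.cast_nonneg _
  set T : Finset ℕ := (range (np X)).filter (fun l : ℕ => ∃ w : Fin k → Fin b,
    {p : ℕ | OccursAt b k w (seqp x y l) p}.Finite) with hT
  rcases lt_or_ge (X : ℝ) ((b : ℝ) ^ 40) with hNb | hNb
  · have h1 : (T.card : ℝ) ≤ np X := by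
      have : T.card ≤ (range (np X)).card := card_le_card (filter_subset _ _)
      rw [card_range] at this
      exact_mod_cast this
    have h2 : 1 ≤ ((b : ℝ) ^ 40 / X) ^ E := by
      apply Real.one_le_rpow _ hE0.le
      rw [le_div_iff₀ hX0]; linarith
    calc (T.card : ℝ) ≤ 1 * 1 * 1 * np X := by linarith
      _ ≤ 2 * K * (b : ℝ) ^ k * ((b : ℝ) ^ 40 / X) ^ E * np X := by gcongr; linarith
  · have hX2 : 2 ≤ X := by
      have h1 : (2 : ℝ) ≤ (b : ℝ) ^ 40 := by
        calc (2 : ℝ) ≤ b := hbr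
          _ = (b : ℝ) ^ 1 := (pow_one _).symm
          _ ≤ (b : ℝ) ^ 40 := pow_le_pow_right₀ (by linarith) (by norm_num)
      exact_mod_cast h1.trans hNb
    have hb40 : (0 : ℝ) < (b : ℝ) ^ 40 := by positivity
    have hNb1 : 1 ≤ (X : ℝ) / (b : ℝ) ^ 40 := by rw [le_div_iff₀ hb40]; linarith
    have hlNb : 0 ≤ Real.log ((X : ℝ) / (b : ℝ) ^ 40) := Real.log_nonneg hNb1
    have hlogX : Real.log ((X : ℝ) / (b : ℝ) ^ 40) = Real.log X - 40 * Real.log b := by
      rw [Real.log_div (by positivity) (by positivity), Real.log_pow]; norm_num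
    set m : ℕ := ⌊Real.log ((X : ℝ) / (b : ℝ) ^ 40) / (80 * k * Real.log b)⌋₊ with hm
    have hm1 : (m : ℝ) ≤ Real.log ((X : ℝ) / (b : ℝ) ^ 40) / (80 * k * Real.log b) :=
      Nat.floor_le (by positivity)
    have hm2 : Real.log ((X : ℝ) / (b : ℝ) ^ 40) / (80 * k * Real.log b) < m + 1 :=
      Nat.lt_floor_add_one _
    have hL : (b : ℝ) ^ (k * m) * √b ≤ (X : ℝ) ^ (1 / 80 : ℝ) := by
      rw [← Real.log_le_log_iff (by positivity) (by positivity),
        Real.log_mul (by positivity) (by positivity), Real.log_pow, Real.log_rpow hX0,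
        Real.log_sqrt (by linarith)]
      rw [le_div_iff₀ (by positivity), hlogX] at hm1
      push_cast
      linarith
    set Tw : (Fin k → Fin b) → Finset ℕ := fun w => (range (np X)).filter (fun l : ℕ =>
      {p : ℕ | OccursAt b k w (seqp x y l) p}.Finite) with hTw
    have hTwb : ∀ w, ((Tw w).card : ℝ) ≤ 2 * K * ((b : ℝ) ^ 40 / X) ^ E * np X := by
      intro w
      have h2 : ∀ l ∈ Tw w, ∃ n0 : ℕ, ∀ p : ℕ, n0 ≤ p → ¬ OccursAt b k w (seqp x y l) p := by
        intro l hl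
        obtain ⟨n0, hn0⟩ := (mem_filter.1 hl).2.bddAbove
        refine ⟨n0 + 1, fun p hp hcon => ?_⟩
        have := hn0 hcon
        omega
      choose! n0 hn0' using h2
      obtain ⟨s, a1, a2⟩ := goodP_exists b X hb hX x hx ((Tw w).sup n0)
      obtain ⟨_, _, h3, _⟩ := hmain b hb X s x hX a2 y
      have h1 := h3 hX2 k m hk hL w
      have hsub : Tw w ⊆ (range (np X)).filter (fun l : ℕ => ∀ u < m,
          ¬ OccursAt b k w (seqp x y l) (s + k * u)) := by
        intro l hl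
        rw [mem_filter]
        refine ⟨(mem_filter.1 hl).1, fun u _ => ?_⟩
        apply hn0' l hl
        have := Finset.le_sup (f := n0) hl
        omega
      have h4 : Real.exp (-(m / (2 * (b : ℝ) ^ k))) ≤ 2 * ((b : ℝ) ^ 40 / X) ^ E := by
        have h5 : ((b : ℝ) ^ 40 / X) ^ E = Real.exp (-(E * Real.log ((X : ℝ) / (b : ℝ) ^ 40))) := by
          rw [Real.rpow_def_of_pos (by positivity)]
          congr 1
          have : Real.log ((b : ℝ) ^ 40 / X) = - Real.log ((X : ℝ) / (b : ℝ) ^ 40) := by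
            rw [← Real.log_inv, inv_div]
          rw [this]; ring
        have h6 : -(m / (2 * (b : ℝ) ^ k)) ≤
            1 / 2 + -(E * Real.log ((X : ℝ) / (b : ℝ) ^ 40)) := by
          have h7 : E * Real.log ((X : ℝ) / (b : ℝ) ^ 40) =
              Real.log ((X : ℝ) / (b : ℝ) ^ 40) / (80 * k * Real.log b) / (2 * (b : ℝ) ^ k) := by
            rw [hE]; field_simp; ring
          have h8 : Real.log ((X : ℝ) / (b : ℝ) ^ 40) / (80 * k * Real.log b) / (2 * (b : ℝ) ^ k) ≤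
              (m + 1) / (2 * (b : ℝ) ^ k) := by gcongr
          have h9 : ((m : ℝ) + 1) / (2 * (b : ℝ) ^ k) =
              m / (2 * (b : ℝ) ^ k) + 1 / (2 * (b : ℝ) ^ k) := by ring
          have h10 : 1 / (2 * (b : ℝ) ^ k) ≤ 1 / 2 := by
            rw [div_le_div_iff₀ (by positivity) (by norm_num)]
            linarith
          rw [h7]; linarith
        have h7 : Real.exp (1 / 2) ≤ 2 := by
          have h8 := Real.exp_one_lt_d9
          have h9 : Real.exp (1 / 2) * Real.exp (1 / 2) = Real.exp 1 := by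
            rw [← Real.exp_add]; norm_num
          nlinarith [Real.exp_pos (1 / 2)]
        calc Real.exp (-(m / (2 * (b : ℝ) ^ k)))
            ≤ Real.exp (1 / 2 + -(E * Real.log ((X : ℝ) / (b : ℝ) ^ 40))) := Real.exp_le_exp.2 h6
          _ = Real.exp (1 / 2) * ((b : ℝ) ^ 40 / X) ^ E := by rw [Real.exp_add, h5]
          _ ≤ 2 * ((b : ℝ) ^ 40 / X) ^ E := by gcongr
      have h5 : ((Tw w).card : ℝ) ≤ (((range (np X)).filter (fun l : ℕ => ∀ u < m,
          ¬ OccursAt b k w (seqp x y l) (s + k * u))).card : ℝ) := by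
        exact_mod_cast card_le_card hsub
      calc ((Tw w).card : ℝ) ≤ K * Real.exp (-(m / (2 * (b : ℝ) ^ k))) * np X := h5.trans h1
        _ ≤ K * (2 * ((b : ℝ) ^ 40 / X) ^ E) * np X := by gcongr
        _ = _ := by ring
    have h5 : T.card ≤ ∑ w : Fin k → Fin b, (Tw w).card := by
      refine (card_le_card ?_).trans card_biUnion_le
      intro l hl
      rw [hT, Finset.mem_filter] at hl
      obtain ⟨hl1, w, hw⟩ := hl
      rw [mem_biUnion]
      exact ⟨w, mem_univ _, mem_filter.2 ⟨hl1, hw⟩⟩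
    have h6 : (T.card : ℝ) ≤ ∑ w : Fin k → Fin b, ((Tw w).card : ℝ) := by exact_mod_cast h5
    refine h6.trans ((sum_le_sum fun w _ => hTwb w).trans ?_)
    rw [sum_const, card_univ, Fintype.card_fun, Fintype.card_fin, Fintype.card_fin, nsmul_eq_mul]
    push_cast
    apply le_of_eq
    ring

/-- every word occurs infinitely often in a small prime multiple -/
theorem small_prime : ∃ K : ℝ, 1 ≤ K ∧ ∀ x : ℝ, Irrational x → ∀ b k : ℕ, 2 ≤ b →
    ∀ (y : ℝ) (w : Fin k → Fin b), ∃ p : ℕ, p.Prime ∧ (p : ℝ) ≤ K * (b : ℝ) ^ (41 * (k + 1)) ∧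
      ∀ N : ℕ, ∃ j : ℕ, N ≤ j ∧ OccursAt b k w (p * x + y) j := by
  obtain ⟨K, hK, hmain⟩ := main
  refine ⟨2 * K ^ 41, ?_, fun x hx b k hb y w => ?_⟩
  · have : 1 ≤ K ^ 41 := one_le_pow₀ hK
    linarith
  have hbr : (2 : ℝ) ≤ b := by exact_mod_cast hb
  set Z : ℝ := K * (b : ℝ) ^ (k + 1) with hZ
  have hZ1 : 1 ≤ Z := by
    have : (1 : ℝ) ≤ (b : ℝ) ^ (k + 1) := one_le_pow₀ (by linarith)
    rw [hZ]; nlinarith
  set X : ℕ := ⌊Z ^ 41⌋₊ + 1 with hX
  have hZ41 : 1 ≤ Z ^ 41 := one_le_pow₀ hZ1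
  have hX1 : Z ^ 41 < X := by rw [hX]; push_cast; exact Nat.lt_floor_add_one _
  have hX2 : 2 ≤ X := by
    have : 1 ≤ ⌊Z ^ 41⌋₊ := by rw [Nat.one_le_floor_iff]; exact hZ41
    omega
  have hX3 : (X : ℝ) ≤ 2 * Z ^ 41 := by
    have := Nat.floor_le (by linarith : 0 ≤ Z ^ 41)
    rw [hX]; push_cast; linarith
  have hX4 : Z < (X : ℝ) ^ (1 / 41 : ℝ) := by
    have h1 : Z = (Z ^ 41) ^ (1 / 41 : ℝ) := by
      rw [← Real.rpow_natCast, ← Real.rpow_mul (by linarith)]; norm_num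
    rw [h1]
    exact Real.rpow_lt_rpow (by linarith) hX1 (by norm_num)
  by_contra hcon
  push Not at hcon
  have hfin : ∀ l : ℕ, ∃ n0 : ℕ, l < np X → ∀ j, n0 ≤ j → ¬ OccursAt b k w (seqp x y l) j := by
    intro l
    by_cases hl : l < np X
    · have h1 : pr l ≤ X := by
        have := Nat.nth_lt_of_lt_count hl
        unfold pr; omega
      have h2 : (pr l : ℝ) ≤ 2 * K ^ 41 * (b : ℝ) ^ (41 * (k + 1)) := by
        have h3 : (pr l : ℝ) ≤ X := by exact_mod_cast h1
        have h4 : Z ^ 41 = K ^ 41 * (b : ℝ) ^ (41 * (k + 1)) := by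
          rw [hZ, mul_pow, ← pow_mul]; ring_nf
        rw [h4] at hX3
        linarith
      obtain ⟨n0, hn0⟩ := hcon (pr l) (pr_prime l) h2
      exact ⟨n0, fun _ => hn0⟩
    · exact ⟨0, fun h => absurd h hl⟩
  choose n0 hn0 using hfin
  obtain ⟨s, a1, a2⟩ := goodP_exists b X hb (by omega) x hx ((range (np X)).sup n0)
  obtain ⟨_, _, _, h4⟩ := hmain b hb X s x (by omega) a2 y
  obtain ⟨l, hl, hocc⟩ := h4 hX2 k hX4 w
  have h5 := Finset.le_sup (f := n0) (mem_range.2 hl)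
  exact hn0 l hl s (h5.trans a1) hocc

end Pool.Agent.Helper21K9.PM
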