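import Pool.Agent.Helper21K9.PM.Words

/-!
# Words of digits in the prime multiples of a number: the main theorems
-/

set_option autoImplicit false

namespace Pool.Agent.Helper21K9.PM

open Finset
open Pool.Agent.H807R2.Dav Pool.Agent.W226.MP Pool.Agent.TH869.LPD

open Classical in
/-- discrepancy, frequencies and existence at a good place -/
theorem main : ∃ K : ℝ, 1 ≤ K ∧ ∀ b : ℕ, 2 ≤ b → ∀ (X s : ℕ) (x : ℝ), 1 ≤ X → GoodP b X x s →
    ∀ y : ℝ,
    (∀ α β : ℝ, 0 ≤ α → α ≤ β → β ≤ 1 →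
      |(((range (np X)).filter (fun l : ℕ => α ≤ Int.fract ((b : ℝ) ^ s * seqp x y l) ∧
        Int.fract ((b : ℝ) ^ s * seqp x y l) < β)).card : ℝ) - (β - α) * np X| ≤
        K * √b * (X : ℝ) ^ (39 / 40 : ℝ)) ∧
    (2 ≤ X → ∀ k L : ℕ, 1 ≤ k → k ≤ L → (b : ℝ) ^ L * √b ≤ (X : ℝ) ^ (1 / 80 : ℝ) →
      ∀ ε : ℝ, 0 < ε → ε ≤ 1 →
      (((range (np X)).filter (fun l : ℕ => ∃ w : Fin k → Fin b, ε * (L + 1 - k : ℕ) + k <
        |(occ b k w (seqp x y l) s (L + 1 - k) : ℝ) - (L + 1 - k : ℕ) / (b : ℝ) ^ k|)).card : ℝ)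
        ≤ K * k * (b : ℝ) ^ k * Real.exp (-(ε ^ 2 / 4) * ((L + 1 - k) / k : ℕ)) * np X) ∧
    (2 ≤ X → ∀ k m : ℕ, 1 ≤ k → (b : ℝ) ^ (k * m) * √b ≤ (X : ℝ) ^ (1 / 80 : ℝ) →
      ∀ w : Fin k → Fin b,
      (((range (np X)).filter (fun l : ℕ => ∀ u < m,
        ¬ OccursAt b k w (seqp x y l) (s + k * u))).card : ℝ)
        ≤ K * Real.exp (-(m / (2 * (b : ℝ) ^ k))) * np X) ∧
    (2 ≤ X → ∀ k : ℕ, K * (b : ℝ) ^ (k + 1) < (X : ℝ) ^ (1 / 41 : ℝ) → ∀ w : Fin k → Fin b,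
      ∃ l < np X, OccursAt b k w (seqp x y l) s) := by
  obtain ⟨K₀, hK₀, hdisc⟩ := place_disc
  refine ⟨40000 * K₀, by linarith, fun b hb X s x hX1 hs y => ?_⟩
  have hbr : (2 : ℝ) ≤ b := by exact_mod_cast hb
  have hb0 : (0 : ℝ) < b := by linarith
  have hXr1 : (1 : ℝ) ≤ X := by exact_mod_cast hX1
  have hX0 : (0 : ℝ) < X := by linarith
  have hcell := cells K₀ hdisc X hX1 b hb x s hs y
  refine ⟨fun α β hα hαβ hβ => ?_, fun hX k L hk hkL hL ε hε hε1 => ?_,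
    fun hX k m hk hL w => ?_, fun hX k hkX w => ?_⟩
  · refine (hdisc X hX1 b hb x s hs y α β hα hαβ hβ).trans ?_
    have : 0 ≤ √(b : ℝ) * (X : ℝ) ^ (39 / 40 : ℝ) := by positivity
    nlinarith
  · have h1 := freqG b k L hb hk hkL s (np X) (seqp x y)
      (np X / (b : ℝ) ^ L + K₀ * √b * (X : ℝ) ^ (39 / 40 : ℝ)) (by positivity)
      (fun z hz => hcell L z hz) ε hε hε1 ((range (np X)).filter (fun l : ℕ =>
        ∃ w : Fin k → Fin b, ε * (L + 1 - k : ℕ) + k <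
        |(occ b k w (seqp x y l) s (L + 1 - k) : ℝ) - (L + 1 - k : ℕ) / (b : ℝ) ^ k|)) (by
          intro m hm
          rw [Finset.mem_filter, Finset.mem_range] at hm
          obtain ⟨hmM, w, hw⟩ := hm
          refine ⟨hmM, Pool.Agent.W226.MP.ext b k w, ext_lt b k hb w, ?_⟩
          have e : ((range (L + 1 - k)).filter (fun j =>
              ∀ s' < k, ⌊(seqp x y m) * (b : ℝ) ^ (s + j + s' + 1)⌋ % (b : ℤ) =
                Pool.Agent.W226.MP.ext b k w s')).card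
              = occ b k w (seqp x y m) s (L + 1 - k) := by
            unfold occ
            congr 1
            apply Finset.filter_congr
            intro j _
            exact (occursAt_iff b k w (seqp x y m) (s + j)).symm
          rw [e]
          exact hw)
    refine h1.trans ?_
    have h2 := window K₀ hK₀ X hX b L hb hL
    have hn0 : (0 : ℝ) ≤ np X := Nat.cast_nonneg _
    calc 2 * k * (b : ℝ) ^ k * Real.exp (-(ε ^ 2 / 4) * ((L + 1 - k) / k : ℕ)) *
          ((b : ℝ) ^ L * (np X / (b : ℝ) ^ L + K₀ * √b * (X : ℝ) ^ (39 / 40 : ℝ)))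
        ≤ 2 * k * (b : ℝ) ^ k * Real.exp (-(ε ^ 2 / 4) * ((L + 1 - k) / k : ℕ)) *
          (1601 * K₀ * np X) := by gcongr
      _ = 3202 * K₀ * (k * (b : ℝ) ^ k * Real.exp (-(ε ^ 2 / 4) * ((L + 1 - k) / k : ℕ)) * np X) := by
          ring
      _ ≤ 40000 * K₀ * (k * (b : ℝ) ^ k * Real.exp (-(ε ^ 2 / 4) * ((L + 1 - k) / k : ℕ)) * np X) := by
          apply mul_le_mul_of_nonneg_right _ (by positivity)
          linarith
      _ = _ := by ring
  · have h1 := avoidG b k m hb hk s (np X) (seqp x y)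
      (np X / (b : ℝ) ^ (k * m) + K₀ * √b * (X : ℝ) ^ (39 / 40 : ℝ)) (by positivity)
      (fun z hz => hcell (k * m) z hz) w ((range (np X)).filter (fun l : ℕ => ∀ u < m,
        ¬ OccursAt b k w (seqp x y l) (s + k * u))) (by
          intro l hl
          rw [Finset.mem_filter, Finset.mem_range] at hl
          exact hl)
    refine h1.trans ?_
    have h2 := window K₀ hK₀ X hX b (k * m) hb hL
    have hn0 : (0 : ℝ) ≤ np X := Nat.cast_nonneg _
    calc Real.exp (-(m / (2 * (b : ℝ) ^ k))) *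
          ((b : ℝ) ^ (k * m) * (np X / (b : ℝ) ^ (k * m) + K₀ * √b * (X : ℝ) ^ (39 / 40 : ℝ)))
        ≤ Real.exp (-(m / (2 * (b : ℝ) ^ k))) * (1601 * K₀ * np X) := by gcongr
      _ = 1601 * K₀ * (Real.exp (-(m / (2 * (b : ℝ) ^ k))) * np X) := by ring
      _ ≤ 40000 * K₀ * (Real.exp (-(m / (2 * (b : ℝ) ^ k))) * np X) := by
          apply mul_le_mul_of_nonneg_right _ (by positivity)
          linarith
      _ = _ := by ring
  · -- one prime
    set W := Pool.Agent.W226.MP.val b (Pool.Agent.W226.MP.ext b k w) k with hW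
    have hWb : W < b ^ k := val_lt b _ (ext_lt b k hb w) k
    have hWr : (W : ℝ) + 1 ≤ (b : ℝ) ^ k := by exact_mod_cast hWb
    have hbk : (0 : ℝ) < (b : ℝ) ^ k := by positivity
    have h1 := hdisc X hX1 b hb x s hs y (W / (b : ℝ) ^ k) ((W + 1) / (b : ℝ) ^ k) (by positivity)
      (by gcongr; linarith) (by rw [div_le_one hbk]; exact hWr)
    have h2 := (abs_le.1 h1).1
    have h3 : (((W : ℝ) + 1) / (b : ℝ) ^ k - W / (b : ℝ) ^ k) * np X = np X / (b : ℝ) ^ k := by ring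
    rw [h3] at h2
    have hlow : K₀ * √b * (X : ℝ) ^ (39 / 40 : ℝ) < np X / (b : ℝ) ^ k := by
      rw [lt_div_iff₀ hbk]
      have h4 := np_ge (1 / 1640) (by norm_num) X hX
      have h5 : √(b : ℝ) ≤ b := by
        rw [Real.sqrt_le_left (by positivity)]
        nlinarith
      calc K₀ * √b * (X : ℝ) ^ (39 / 40 : ℝ) * (b : ℝ) ^ k
          ≤ K₀ * b * (X : ℝ) ^ (39 / 40 : ℝ) * (b : ℝ) ^ k := by gcongr
        _ = (40000 * K₀ * (b : ℝ) ^ (k + 1)) * ((X : ℝ) ^ (39 / 40 : ℝ) / 40000) := by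
            rw [pow_succ]; ring
        _ < (X : ℝ) ^ (1 / 41 : ℝ) * ((X : ℝ) ^ (39 / 40 : ℝ) / 40000) := by
            apply mul_lt_mul_of_pos_right hkX (by positivity)
        _ = 1 / 40000 * (X : ℝ) ^ (1 - 1 / 1640 : ℝ) := by
            have : (1 - 1 / 1640 : ℝ) = 1 / 41 + 39 / 40 := by norm_num
            rw [this, Real.rpow_add hX0]; ring
        _ ≤ 1 / 1640 / 20 * (X : ℝ) ^ (1 - 1 / 1640 : ℝ) := by
            apply mul_le_mul_of_nonneg_right _ (by positivity)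
            norm_num
        _ ≤ np X := h4
    have hpos : 0 < ((range (np X)).filter (fun l : ℕ =>
        W / (b : ℝ) ^ k ≤ Int.fract ((b : ℝ) ^ s * (pr l * x + y)) ∧
        Int.fract ((b : ℝ) ^ s * (pr l * x + y)) < (W + 1) / (b : ℝ) ^ k)).card := by
      have : (0 : ℝ) < (((range (np X)).filter (fun l : ℕ =>
        W / (b : ℝ) ^ k ≤ Int.fract ((b : ℝ) ^ s * (pr l * x + y)) ∧
        Int.fract ((b : ℝ) ^ s * (pr l * x + y)) < (W + 1) / (b : ℝ) ^ k)).card : ℝ) := by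
        linarith
      exact_mod_cast this
    obtain ⟨l, hl⟩ := card_pos.1 hpos
    rw [mem_filter, mem_range] at hl
    obtain ⟨hl1, hl2, hl3⟩ := hl
    refine ⟨l, hl1, ?_⟩
    rw [occursAt_val b k hb]
    rw [div_le_iff₀ hbk] at hl2
    rw [lt_div_iff₀ hbk] at hl3
    have h6 : ⌊seqp x y l * (b : ℝ) ^ (s + k)⌋ =
        (W : ℤ) + ⌊(b : ℝ) ^ s * (pr l * x + y)⌋ * (b : ℤ) ^ k := by
      rw [Int.floor_eq_iff]
      push_cast
      have h7 : seqp x y l * (b : ℝ) ^ (s + k) =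
          (Int.fract ((b : ℝ) ^ s * (pr l * x + y)) + ⌊(b : ℝ) ^ s * (pr l * x + y)⌋) * (b : ℝ) ^ k := by
        rw [Int.fract_add_floor]
        unfold seqp
        rw [pow_add]; ring
      rw [h7]
      constructor <;> nlinarith
    rw [h6, Int.add_mul_emod_self_right]
    exact Int.emod_eq_of_lt (by positivity) (by exact_mod_cast hWb)

end Pool.Agent.Helper21K9.PM
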